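import Mathlib

set_option autoImplicit false

/-!
# The obstruction to shellability

A system of permutations of three sheets on the edges of a 3-dimensional complex, away from three
special vertices, that is flat on facets and has no global section, together with a section near
the special vertices, excludes shellability.
-/

namespace Pool.Agent.Shell

universe u v

variable {W : Type u} [DecidableEq W]

set_option linter.unusedSectionVars false

/-- Shelling lists, in reversed order (the head is the last facet). -/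
def Sh : List (Finset W) → Prop
  | [] => True
  | F :: l => Sh l ∧ ∀ ρ, ρ ⊆ F → (∃ G ∈ l, ρ ⊆ G) →
      ∃ T, T ⊆ F ∧ T.card + 1 = F.card ∧ ρ ⊆ T ∧ ∃ G ∈ l, T ⊆ G

/-- The obstruction data on a list of facets. -/
structure Sys (Kv : Finset W) (M : W → W → Equiv.Perm (Fin 3)) (h : W → W → Fin 3)
    (l : List (Finset W)) : Prop where
  card4 : ∀ G ∈ l, G.card = 4
  notK : ∀ G ∈ l, ¬ Kv ⊆ G
  flat : ∀ G ∈ l, ∀ x ∈ G, x ∉ Kv → ∀ y ∈ G, y ∉ Kv → ∀ z ∈ G, z ∉ Kv →
    M y z * M x y = M x z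
  hloc : ∀ G ∈ l, ∀ k ∈ G, k ∈ Kv → ∀ x ∈ G, x ∉ Kv → ∀ y ∈ G, y ∉ Kv →
    M x y (h k x) = h k y
  hcomp : ∀ G ∈ l, ∀ k ∈ G, k ∈ Kv → ∀ k' ∈ G, k' ∈ Kv → ∀ x ∈ G, x ∉ Kv → h k x = h k' x

theorem Sys.tail {Kv : Finset W} {M : W → W → Equiv.Perm (Fin 3)} {h : W → W → Fin 3}
    {F : Finset W} {l : List (Finset W)} (S : Sys Kv M h (F :: l)) : Sys Kv M h l :=
  ⟨fun G hG => S.card4 G (List.mem_cons_of_mem _ hG),
   fun G hG => S.notK G (List.mem_cons_of_mem _ hG),
   fun G hG => S.flat G (List.mem_cons_of_mem _ hG),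
   fun G hG => S.hloc G (List.mem_cons_of_mem _ hG),
   fun G hG => S.hcomp G (List.mem_cons_of_mem _ hG)⟩

/-- Sections with values in a set with an action of the permutations of the three sheets. -/
def Sec {Y : Type v} [MulAction (Equiv.Perm (Fin 3)) Y] (Kv : Finset W)
    (M : W → W → Equiv.Perm (Fin 3)) (φ : W → Y) (l : List (Finset W)) : Prop :=
  ∀ G ∈ l, ∀ x ∈ G, x ∉ Kv → ∀ y ∈ G, y ∉ Kv → M x y • φ x = φ y

variable {Kv : Finset W} {M : W → W → Equiv.Perm (Fin 3)} {h : W → W → Fin 3}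

/-- A ridge of a facet is not made of the special vertices only. -/
theorem exists_nonK {F T : Finset W} (hK : Kv.card = 3) (hF : ¬ Kv ⊆ F) (hT : T ⊆ F)
    (hTc : T.card = 3) : ∃ x ∈ T, x ∉ Kv := by
  by_contra hcon
  push Not at hcon
  have : T = Kv := Finset.eq_of_subset_of_card_le hcon (by omega)
  exact hF (this ▸ hT)

theorem ext_sec {Y : Type v} [MulAction (Equiv.Perm (Fin 3)) Y] (hK : Kv.card = 3)
    {F : Finset W} {l : List (Finset W)} (S : Sys Kv M h (F :: l)) (φ : W → Y)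
    (hφ : Sec Kv M φ l)
    (hold : ∀ x ∈ F, x ∉ Kv → (∃ G ∈ l, x ∈ G) → ∀ y ∈ F, y ∉ Kv → (∃ G ∈ l, y ∈ G) →
      M x y • φ x = φ y) :
    ∃ φ' : W → Y, Sec Kv M φ' (F :: l) ∧ ∀ x, (∃ G ∈ l, x ∈ G) → φ' x = φ x := by
  classical
  have hflat := S.flat F List.mem_cons_self
  have hF4 := S.card4 F List.mem_cons_self
  -- the main construction from a base vertex
  have main : ∀ x0 ∈ F, x0 ∉ Kv →
      (∀ x ∈ F, x ∉ Kv → (∃ G ∈ l, x ∈ G) → φ x = M x0 x • φ x0) →
      ∃ φ' : W → Y, Sec Kv M φ' (F :: l) ∧ ∀ x, (∃ G ∈ l, x ∈ G) → φ' x = φ x := by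
    intro x0 hx0 hx0K hbase
    refine ⟨fun x => if ∃ G ∈ l, x ∈ G then φ x else M x0 x • φ x0, ?_, ?_⟩
    · intro G hG x hx hxK y hy hyK
      rcases List.mem_cons.1 hG with rfl | hG
      · have hval : ∀ z ∈ G, z ∉ Kv →
            (if ∃ G ∈ l, z ∈ G then φ z else M x0 z • φ x0) = M x0 z • φ x0 := by
          intro z hz hzK
          split_ifs with h1
          · exact hbase z hz hzK h1
          · rfl
        simp only
        rw [hval x hx hxK, hval y hy hyK, smul_smul, hflat x0 hx0 hx0K x hx hxK y hy hyK]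
      · have h1 : ∃ G ∈ l, x ∈ G := ⟨G, hG, hx⟩
        have h2 : ∃ G ∈ l, y ∈ G := ⟨G, hG, hy⟩
        simp only
        rw [if_pos h1, if_pos h2]
        exact hφ G hG x hx hxK y hy hyK
    · intro x hx
      simp only
      rw [if_pos hx]
  by_cases hex : ∃ x0 ∈ F, x0 ∉ Kv ∧ ∃ G ∈ l, x0 ∈ G
  · obtain ⟨x0, hx0, hx0K, hx0o⟩ := hex
    apply main x0 hx0 hx0K
    intro x hx hxK hxo
    exact (hold x0 hx0 hx0K hx0o x hx hxK hxo).symm
  · push Not at hex
    have : ∃ x0 ∈ F, x0 ∉ Kv := by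
      by_contra hcon
      push Not at hcon
      have := Finset.card_le_card (show F ⊆ Kv from hcon)
      omega
    obtain ⟨x0, hx0, hx0K⟩ := this
    apply main x0 hx0 hx0K
    intro x hx hxK hxo
    obtain ⟨G, hG, hxG⟩ := hxo
    exact absurd hxG (hex x hx hxK G hG)

/-- Comparison of the values of a section at two old vertices of a new facet. -/
theorem consist {Y : Type v} [MulAction (Equiv.Perm (Fin 3)) Y]
    {F : Finset W} {l : List (Finset W)} (S : Sys Kv M h (F :: l)) (hSh : Sh (F :: l))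
    (φ : W → Y) (hφ : Sec Kv M φ l)
    {x : W} (hx : x ∈ F) (hxK : x ∉ Kv) (hxo : ∃ G ∈ l, x ∈ G)
    {y : W} (hy : y ∈ F) (hyK : y ∉ Kv) (hyo : ∃ G ∈ l, y ∈ G) :
    M x y • φ x = φ y ∨ ∃ a ∈ F, ∃ b ∈ F, a ∈ Kv ∧ b ∈ Kv ∧ a ≠ b ∧
      (∃ G ∈ l, x ∈ G ∧ a ∈ G ∧ b ∈ G) ∧ (∃ G ∈ l, y ∈ G ∧ a ∈ G ∧ b ∈ G) := by
  have hflat := S.flat F List.mem_cons_self
  have hF4 := S.card4 F List.mem_cons_self
  by_cases hxy : x = y
  · left
    subst hxy
    obtain ⟨G, hG, hxG⟩ := hxo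
    exact hφ G hG x hxG hxK x hxG hxK
  have hridge := hSh.2
  obtain ⟨T, hTF, hTc, hxT, G, hG, hTG⟩ := hridge {x} (by simpa using hx) (by
    obtain ⟨G, hG, hxG⟩ := hxo
    exact ⟨G, hG, by simpa using hxG⟩)
  obtain ⟨T', hTF', hTc', hyT', G', hG', hTG'⟩ := hridge {y} (by simpa using hy) (by
    obtain ⟨G, hG, hyG⟩ := hyo
    exact ⟨G, hG, by simpa using hyG⟩)
  rw [Finset.singleton_subset_iff] at hxT hyT'
  by_cases hyT : y ∈ T
  · left; exact hφ G hG x (hTG hxT) hxK y (hTG hyT) hyK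
  by_cases hxT' : x ∈ T'
  · left; exact hφ G' hG' x (hTG' hxT') hxK y (hTG' hyT') hyK
  -- `T = F \ {y}`, `T' = F \ {x}`
  have hT : T = F.erase y := by
    apply Finset.eq_of_subset_of_card_le
    · intro z hz
      exact Finset.mem_erase.2 ⟨fun hzy => hyT (hzy ▸ hz), hTF hz⟩
    · rw [Finset.card_erase_of_mem hy]; omega
  have hT' : T' = F.erase x := by
    apply Finset.eq_of_subset_of_card_le
    · intro z hz
      exact Finset.mem_erase.2 ⟨fun hzy => hxT' (hzy ▸ hz), hTF' hz⟩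
    · rw [Finset.card_erase_of_mem hx]; omega
  have hcard : ((F.erase x).erase y).card = 2 := by
    rw [Finset.card_erase_of_mem (Finset.mem_erase.2 ⟨fun hh => hxy hh.symm, hy⟩),
      Finset.card_erase_of_mem hx, hF4]
  obtain ⟨a, b, hab, habe⟩ := Finset.card_eq_two.1 hcard
  have hmem : ∀ z, z ∈ ((F.erase x).erase y) → z ∈ F ∧ z ∈ G ∧ z ∈ G' := by
    intro z hz
    rw [Finset.mem_erase, Finset.mem_erase] at hz
    refine ⟨hz.2.2, hTG ?_, hTG' ?_⟩
    · rw [hT]; exact Finset.mem_erase.2 ⟨hz.1, hz.2.2⟩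
    · rw [hT']; exact Finset.mem_erase.2 ⟨hz.2.1, hz.2.2⟩
  have ha := hmem a (by rw [habe]; simp)
  have hb := hmem b (by rw [habe]; simp)
  have through : ∀ z, z ∈ F ∧ z ∈ G ∧ z ∈ G' → z ∉ Kv → M x y • φ x = φ y := by
    rintro z ⟨hz1, hz2, hz3⟩ hzK
    have e1 := hφ G hG x (hTG hxT) hxK z hz2 hzK
    have e2 := hφ G' hG' z hz3 hzK y (hTG' hyT') hyK
    rw [← e2, ← e1, smul_smul, hflat x hx hxK z hz1 hzK y hy hyK]
  by_cases haK : a ∈ Kv
  · by_cases hbK : b ∈ Kv
    · right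
      exact ⟨a, ha.1, b, hb.1, haK, hbK, hab, ⟨G, hG, hTG hxT, ha.2.1, hb.2.1⟩,
        ⟨G', hG', hTG' hyT', ha.2.2, hb.2.2⟩⟩
    · left; exact through b hb hbK
  · left; exact through a ha haK

/-- The facets of a shelling containing a given vertex are connected through ridges containing
that vertex. -/
theorem star_conn {k : W} (P : Finset W → Prop) :
    ∀ {l : List (Finset W)}, Sh l → (∀ G ∈ l, G.card = 4) →
    (∀ G₁ ∈ l, ∀ G₂ ∈ l, k ∈ G₁ → k ∈ G₂ →
      (∃ T, T ⊆ G₁ ∧ T ⊆ G₂ ∧ T.card = 3 ∧ k ∈ T) → P G₁ → P G₂) →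
    ∀ G₁ ∈ l, ∀ G₂ ∈ l, k ∈ G₁ → k ∈ G₂ → P G₁ → P G₂ := by
  intro l
  induction l with
  | nil => intro _ _ _ G₁ hG₁; simp at hG₁
  | cons F l ih =>
    intro hSh hc htr G₁ hG₁ G₂ hG₂ hk₁ hk₂ hP
    have ih' := ih hSh.1 (fun G hG => hc G (List.mem_cons_of_mem _ hG))
      (fun A hA B hB => htr A (List.mem_cons_of_mem _ hA) B (List.mem_cons_of_mem _ hB))
    have hridge := hSh.2
    rcases List.mem_cons.1 hG₁ with h1 | h1 <;> rcases List.mem_cons.1 hG₂ with h2 | h2
    · rw [h2, ← h1]; exact hP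
    · -- from the new facet to an old one
      obtain ⟨T, hTF, hTc, hkT, G, hG, hTG⟩ := hridge {k} (by
        rw [← h1]; simpa using hk₁) ⟨G₂, h2, by simpa using hk₂⟩
      rw [Finset.singleton_subset_iff] at hkT
      have hPG : P G := by
        apply htr G₁ hG₁ G (List.mem_cons_of_mem _ hG) hk₁ (hTG hkT) ⟨T, ?_, hTG, ?_, hkT⟩ hP
        · rw [h1]; exact hTF
        · have := hc G₁ hG₁
          rw [h1] at this
          omega
      exact ih' G hG G₂ h2 (hTG hkT) hk₂ hPG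
    · obtain ⟨T, hTF, hTc, hkT, G, hG, hTG⟩ := hridge {k} (by
        rw [← h2]; simpa using hk₂) ⟨G₁, h1, by simpa using hk₁⟩
      rw [Finset.singleton_subset_iff] at hkT
      have hPG : P G := ih' G₁ h1 G hG hk₁ (hTG hkT) hP
      apply htr G (List.mem_cons_of_mem _ hG) G₂ hG₂ (hTG hkT) hk₂ ⟨T, hTG, ?_, ?_, hkT⟩ hPG
      · rw [h2]; exact hTF
      · have := hc G₂ hG₂
        rw [h2] at this
        omega
    · exact ih' G₁ h1 G₂ h2 hk₁ hk₂ hP

/-- The second kind of state along a shelling: a section that agrees with the local section near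
two of the special vertices. -/
def StateB (Kv : Finset W) (M : W → W → Equiv.Perm (Fin 3)) (h : W → W → Fin 3)
    (l : List (Finset W)) : Prop :=
  ∃ s : W → Fin 3, Sec Kv M s l ∧ ∃ k ∈ Kv, ∃ k' ∈ Kv, k ≠ k' ∧
    (∀ κ, (κ = k ∨ κ = k') → ∀ G ∈ l, κ ∈ G → ∀ x ∈ G, x ∉ Kv → s x = h κ x) ∧
    (∃ G ∈ l, k ∈ G ∧ k' ∈ G)

theorem stepB (hK : Kv.card = 3) {F : Finset W} {l : List (Finset W)}
    (S : Sys Kv M h (F :: l)) (hSh : Sh (F :: l)) (hB : StateB Kv M h l) :
    StateB Kv M h (F :: l) := by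
  obtain ⟨s, hs, k, hk, k', hk', hkk', hloc, G₀, hG₀, hkG₀, hkG₀'⟩ := hB
  have hF4 := S.card4 F List.mem_cons_self
  obtain ⟨s', hs', hold'⟩ := ext_sec hK S s hs (by
    intro x hx hxK hxo y hy hyK hyo
    rcases consist S hSh s hs hx hxK hxo hy hyK hyo with h1 | h1
    · exact h1
    · obtain ⟨a, haF, b, hbF, haK, hbK, hab, ⟨G, hG, hxG, haG, hbG⟩,
        ⟨G', hG', hyG', haG', hbG'⟩⟩ := h1
      -- one of `a`, `b` is one of `k`, `k'`
      have key : ∃ κ, (κ = k ∨ κ = k') ∧ κ ∈ F ∧ κ ∈ Kv ∧ κ ∈ G ∧ κ ∈ G' := by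
        by_contra hcon
        push Not at hcon
        have h1 : a ≠ k := fun hh => hcon a (Or.inl hh) haF haK haG haG'
        have h2 : a ≠ k' := fun hh => hcon a (Or.inr hh) haF haK haG haG'
        have h3 : b ≠ k := fun hh => hcon b (Or.inl hh) hbF hbK hbG hbG'
        have h4 : b ≠ k' := fun hh => hcon b (Or.inr hh) hbF hbK hbG hbG'
        have hsub : ({a, b, k, k'} : Finset W) ⊆ Kv := by
          intro z hz
          simp only [Finset.mem_insert, Finset.mem_singleton] at hz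
          rcases hz with rfl | rfl | rfl | rfl <;> assumption
        have hc : ({a, b, k, k'} : Finset W).card = 4 := by
          rw [Finset.card_insert_of_notMem, Finset.card_insert_of_notMem,
            Finset.card_insert_of_notMem, Finset.card_singleton]
          · simpa using hkk'
          · simp only [Finset.mem_insert, Finset.mem_singleton, not_or]; exact ⟨h3, h4⟩
          · simp only [Finset.mem_insert, Finset.mem_singleton, not_or]; exact ⟨hab, h1, h2⟩
        have := Finset.card_le_card hsub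
        omega
      obtain ⟨κ, hκ, hκF, hκK, hκG, hκG'⟩ := key
      have e1 := hloc κ hκ G hG hκG x hxG hxK
      have e2 := hloc κ hκ G' hG' hκG' y hyG' hyK
      rw [e1, e2]
      exact S.hloc F List.mem_cons_self κ hκF hκK x hx hxK y hy hyK)
  refine ⟨s', hs', k, hk, k', hk', hkk', ?_, G₀, List.mem_cons_of_mem _ hG₀, hkG₀, hkG₀'⟩
  intro κ hκ G hG hκG x hx hxK
  rcases List.mem_cons.1 hG with h1 | h1
  · -- the new facet
    have hκG₀ : κ ∈ G₀ := by rcases hκ with rfl | rfl <;> assumption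
    have hκK : κ ∈ Kv := by rcases hκ with rfl | rfl <;> assumption
    rw [h1] at hκG hx
    obtain ⟨T, hTF, hTc, hkT, G₁, hG₁, hTG₁⟩ := hSh.2 {κ} (by simpa using hκG)
      ⟨G₀, hG₀, by simpa using hκG₀⟩
    rw [Finset.singleton_subset_iff] at hkT
    obtain ⟨x0, hx0, hx0K⟩ := exists_nonK hK (S.notK F List.mem_cons_self) hTF (by omega)
    have e1 : s' x0 = h κ x0 := by
      rw [hold' x0 ⟨G₁, hG₁, hTG₁ hx0⟩]
      exact hloc κ hκ G₁ hG₁ (hTG₁ hkT) x0 (hTG₁ hx0) hx0K
    have e2 := hs' F List.mem_cons_self x0 (hTF hx0) hx0K x hx hxK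
    rw [← e2, e1]
    exact S.hloc F List.mem_cons_self κ hκG hκK x0 (hTF hx0) hx0K x hx hxK
  · rw [hold' x ⟨G, h1, hx⟩]
    exact hloc κ hκ G h1 hκG x hx hxK

theorem state (hK : Kv.card = 3) : ∀ {l : List (Finset W)}, Sys Kv M h l → Sh l →
    (∃ φ : W → Equiv.Perm (Fin 3), Sec Kv M φ l) ∨ StateB Kv M h l := by
  intro l
  induction l with
  | nil =>
    intro _ _
    left
    exact ⟨fun _ => 1, fun G hG => by simp at hG⟩
  | cons F l ih =>
    intro S hSh
    rcases ih S.tail hSh.1 with ⟨φ, hφ⟩ | hB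
    · by_cases hcon : ∀ x ∈ F, x ∉ Kv → (∃ G ∈ l, x ∈ G) → ∀ y ∈ F, y ∉ Kv →
          (∃ G ∈ l, y ∈ G) → M x y • φ x = φ y
      · left
        obtain ⟨φ', hφ', _⟩ := ext_sec hK S φ hφ hcon
        exact ⟨φ', hφ'⟩
      · right
        push Not at hcon
        obtain ⟨x, hx, hxK, hxo, y, hy, hyK, hyo, hne⟩ := hcon
        rcases consist S hSh φ hφ hx hxK hxo hy hyK hyo with h1 | h1
        · exact absurd h1 hne
        obtain ⟨a, haF, b, hbF, haK, hbK, hab, ⟨G, hG, hxG, haG, hbG⟩, _⟩ := h1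
        apply stepB hK S hSh
        -- the section that is right near `a` and `b`
        set s : W → Fin 3 := fun z => (φ z * (φ x)⁻¹) (h a x) with hs
        have hsec : Sec Kv M s l := by
          intro G₁ hG₁ z hz hzK w hw hwK
          have e := hφ G₁ hG₁ z hz hzK w hw hwK
          simp only [hs]
          rw [← e]
          simp [Equiv.Perm.smul_def, smul_eq_mul, mul_assoc]
        have hsx : s x = h a x := by simp [hs]
        have S' := S.tail
        have near : ∀ κ, (κ = a ∨ κ = b) → ∀ G₁ ∈ l, κ ∈ G₁ → ∀ z ∈ G₁, z ∉ Kv →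
            s z = h κ z := by
          intro κ hκ G₁ hG₁ hκG₁
          have hκK : κ ∈ Kv := by rcases hκ with rfl | rfl <;> assumption
          have hκG : κ ∈ G := by rcases hκ with rfl | rfl <;> assumption
          apply star_conn (k := κ) (fun G₂ => ∀ z ∈ G₂, z ∉ Kv → s z = h κ z) hSh.1 S'.card4
            _ G hG G₁ hG₁ hκG hκG₁
          · intro z hz hzK
            have e1 : s x = h κ x := by
              rw [hsx]
              exact S'.hcomp G hG a haG haK κ hκG hκK x hxG hxK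
            have e2 := hsec G hG x hxG hxK z hz hzK
            rw [← e2, e1]
            exact S'.hloc G hG κ hκG hκK x hxG hxK z hz hzK
          · intro A hA B hB hkA hkB hT hPA z hz hzK
            obtain ⟨T, hTA, hTB, hTc, hkT⟩ := hT
            obtain ⟨x0, hx0, hx0K⟩ := exists_nonK hK (S'.notK A hA) hTA hTc
            have e1 := hPA x0 (hTA hx0) hx0K
            have e2 := hsec B hB x0 (hTB hx0) hx0K z hz hzK
            rw [← e2, e1]
            exact S'.hloc B hB κ hkB hκK x0 (hTB hx0) hx0K z hz hzK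
        exact ⟨s, hsec, a, haK, b, hbK, hab, near, G, hG, haG, hbG⟩
    · right
      exact stepB hK S hSh hB

/-- The obstruction to shellability. -/
theorem no_shelling (hK : Kv.card = 3) {l : List (Finset W)} (S : Sys Kv M h l) (hSh : Sh l)
    (hno : ∀ s : W → Fin 3, ¬ Sec Kv M s l) : False := by
  rcases state hK S hSh with ⟨φ, hφ⟩ | ⟨s, hs, _⟩
  · apply hno (fun z => φ z 0)
    intro G hG x hx hxK y hy hyK
    have e := hφ G hG x hx hxK y hy hyK
    show M x y • (φ x) 0 = (φ y) 0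
    rw [← e]
    rfl
  · exact hno s hs

end Pool.Agent.Shell
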