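import Mathlib

set_option autoImplicit false

/-!
# Explicit data: a triangulated 3-sphere with 13 vertices and 56 facets

It has a trefoil knot on the three edges spanned by the special vertices, it is obtained from the
boundary of a 4-simplex by 35 bistellar flips that keep the facet `0123`, and the complement of
the knot has a connected non-cyclic covering with three sheets.
-/

namespace Pool.Agent.Shell

/-- The list `a` is contained in the list `b`. -/
def subL (a b : List ℕ) : Bool := a.all fun x => b.any fun y => x == y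

/-- Delete the element `v` from a list. -/
def del (l : List ℕ) (v : ℕ) : List ℕ := l.filter fun x => !(x == v)

/-- The facets after the flip exchanging `σ` and `τ`. -/
def newFacets (fs : List (List ℕ)) (σ τ : List ℕ) : List (List ℕ) :=
  fs.filter (fun b => !(subL σ b)) ++ σ.map fun v => del (σ ++ τ) v

/-- The conditions for a flip. -/
def validFlip (fs : List (List ℕ)) (σ τ : List ℕ) : Bool :=
  (σ.all fun x => !(τ.any fun y => x == y)) &&
  (τ.all fun w => fs.any fun b => subL (del (σ ++ τ) w) b) &&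
  (fs.all fun b => !(subL σ b) || τ.any fun w => subL b (del (σ ++ τ) w)) &&
  (fs.all fun b => !(subL τ b)) &&
  (σ.any fun x => Nat.ble 4 x) && (τ.any fun x => Nat.ble 4 x) &&
  ((σ ++ τ).length == 5)

/-- Perform a list of flips, checking the conditions. -/
def runFlips : List (List ℕ × List ℕ) → List (List ℕ) → Option (List (List ℕ))
  | [], fs => some fs
  | (σ, τ) :: r, fs => if validFlip fs σ τ then runFlips r (newFacets fs σ τ) else none

/-- The facets of the boundary of the 4-simplex. -/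
def startFacets : List (List ℕ) :=
  [[0, 1, 2, 3], [0, 1, 2, 4], [0, 1, 3, 4], [0, 2, 3, 4], [1, 2, 3, 4]]

/-- The flips. -/
def flips : List (List ℕ × List ℕ) :=
  [([0, 1, 3, 4], [5]),
   ([0, 2, 3, 4], [6]),
   ([0, 3, 4], [5, 6]),
   ([2, 3, 4, 6], [7]),
   ([2, 3, 4], [1, 7]),
   ([0, 1, 4, 5], [8]),
   ([0, 4, 5], [6, 8]),
   ([1, 3, 4, 7], [9]),
   ([1, 2, 4, 7], [10]),
   ([1, 4, 7], [9, 10]),
   ([2, 4, 7], [6, 10]),
   ([2, 4, 6], [0, 10]),
   ([0, 3, 5, 6], [11]),
   ([3, 5, 6], [4, 11]),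
   ([1, 3, 4], [5, 9]),
   ([1, 4, 10], [2, 9]),
   ([0, 1, 5], [3, 8]),
   ([4, 5, 8], [1, 6]),
   ([1, 3, 5], [8, 9]),
   ([2, 4, 10], [0, 9]),
   ([1, 4, 9], [2, 5]),
   ([1, 2, 9], [5, 10]),
   ([4, 5, 6], [1, 11]),
   ([0, 4, 6], [8, 10]),
   ([0, 2, 10], [6, 9]),
   ([0, 3, 6, 11], [12]),
   ([0, 3, 6], [2, 12]),
   ([4, 6, 10], [7, 8]),
   ([1, 4, 5], [2, 11]),
   ([1, 2, 5], [10, 11]),
   ([6, 7, 10], [2, 8]),
   ([1, 2, 10], [7, 11]),
   ([0, 2, 6], [9, 12]),
   ([2, 7, 10], [8, 11]),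
   ([0, 6, 12], [9, 11])]

/-- The facets of the sphere. -/
def endFacets : List (List ℕ) :=
  [[0, 1, 2, 3], [0, 1, 2, 4], [3, 4, 6, 7], [2, 3, 6, 7], [2, 3, 1, 7],
   [0, 1, 4, 8], [0, 5, 6, 8], [3, 4, 7, 9], [1, 3, 7, 9], [4, 7, 9, 10],
   [1, 7, 9, 10], [0, 5, 6, 11], [0, 3, 5, 11], [3, 6, 4, 11], [3, 5, 4, 11],
   [3, 4, 5, 9], [0, 5, 3, 8], [0, 1, 3, 8], [5, 8, 1, 6], [4, 8, 1, 6],
   [3, 5, 8, 9], [1, 5, 8, 9], [1, 3, 8, 9], [4, 10, 0, 9], [2, 4, 0, 9],
   [4, 9, 2, 5], [2, 9, 5, 10], [1, 9, 5, 10], [5, 6, 1, 11], [4, 6, 1, 11],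
   [0, 6, 8, 10], [0, 4, 8, 10], [2, 10, 6, 9], [0, 10, 6, 9], [3, 6, 11, 12],
   [0, 3, 11, 12], [3, 6, 2, 12], [0, 3, 2, 12], [4, 10, 7, 8], [4, 6, 7, 8],
   [4, 5, 2, 11], [1, 4, 2, 11], [2, 5, 10, 11], [1, 5, 10, 11], [6, 10, 2, 8],
   [6, 7, 2, 8], [1, 10, 7, 11], [1, 2, 7, 11], [2, 6, 9, 12], [0, 2, 9, 12],
   [7, 10, 8, 11], [2, 10, 8, 11], [2, 7, 8, 11], [6, 12, 9, 11], [0, 12, 9, 11],
   [0, 6, 9, 11]]

theorem runFlips_eq : runFlips flips startFacets = some endFacets := by decide +kernel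

/-- The special vertices. -/
def kv : List ℕ := [8, 9, 11]

/-- A cyclic permutation of the three sheets. -/
def rot : Equiv.Perm (Fin 3) where
  toFun := ![1, 2, 0]
  invFun := ![2, 0, 1]
  left_inv := by decide
  right_inv := by decide

/-- Numbering of the permutations of the three sheets. -/
def prm : ℕ → Equiv.Perm (Fin 3)
  | 1 => Equiv.swap 0 1
  | 2 => Equiv.swap 0 2
  | 3 => Equiv.swap 1 2
  | 4 => rot
  | 5 => rot⁻¹
  | _ => 1

/-- The edges `ij`, `i < j`, encoded as `16 * i + j`, with nontrivial permutation. -/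
def mTable : List (ℕ × ℕ) :=
  [(4, 4), (6, 3), (10, 4), (20, 4), (21, 2), (22, 4), (36, 4), (37, 4), (42, 1), (86, 3), (90, 2), (106, 1)]

/-- The local sections near the special vertices: `16 * k + x` for a special vertex `k`. -/
def hTable : List (ℕ × ℕ) :=
  [(128, 1), (129, 1), (130, 2), (131, 1), (132, 2), (133, 1), (134, 2), (135, 2),
   (138, 2), (145, 1), (147, 1), (148, 1), (149, 1), (151, 1), (154, 1), (177, 2),
   (178, 2), (183, 2), (186, 2)]

/-- The permutation attached to the edge from `i` to `j`. -/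
def tM (i j : ℕ) : Equiv.Perm (Fin 3) :=
  if i < j then prm ((mTable.lookup (16 * i + j)).getD 0)
  else if j < i then (prm ((mTable.lookup (16 * j + i)).getD 0))⁻¹
  else 1

/-- The local section near the special vertex `k`. -/
def th (k x : ℕ) : Fin 3 := Fin.ofNat 3 ((hTable.lookup (16 * k + x)).getD 0)

theorem flat_check : ∀ b ∈ endFacets, ∀ x ∈ b, x ∉ kv → ∀ y ∈ b, y ∉ kv → ∀ z ∈ b, z ∉ kv →
    tM y z * tM x y = tM x z := by decide +kernel

theorem hloc_check : ∀ b ∈ endFacets, ∀ k ∈ b, k ∈ kv → ∀ x ∈ b, x ∉ kv → ∀ y ∈ b, y ∉ kv →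
    tM x y (th k x) = th k y := by decide +kernel

theorem hcomp_check : ∀ b ∈ endFacets, ∀ k ∈ b, k ∈ kv → ∀ k' ∈ b, k' ∈ kv →
    ∀ x ∈ b, x ∉ kv → th k x = th k' x := by decide +kernel

theorem small_check : ∀ i < 4, ∀ j < 4, tM i j = 1 := by decide +kernel

theorem notK_check : ∀ b ∈ endFacets, ¬ (subL kv b = true) := by decide +kernel

theorem card_check : ∀ b ∈ endFacets, b.toFinset.card = 4 := by decide +kernel

/-- A closed walk away from the special vertices. -/
def walk : List ℕ := [0, 1, 10, 0]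

/-- The permutation obtained along a walk. -/
def hol : List ℕ → Equiv.Perm (Fin 3)
  | x :: y :: r => hol (y :: r) * tM x y
  | _ => 1

theorem hol_check : ∀ c : Fin 3, hol walk c ≠ c := by decide +kernel

/-- Consecutive vertices of the walk lie in a common facet different from `0123`. -/
def walkOk : List ℕ → Bool
  | x :: y :: r => (endFacets.any fun b => !(subL b [0, 1, 2, 3]) && (b.any fun z => z == x) &&
      (b.any fun z => z == y)) && !(kv.any fun z => z == x) && !(kv.any fun z => z == y) &&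
      walkOk (y :: r)
  | _ => true

theorem walk_check : walkOk walk = true := by decide +kernel

theorem walk_closed : walk.head? = walk.getLast? := by decide +kernel

end Pool.Agent.Shell
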