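import Mathlib

set_option autoImplicit false

namespace Pool.Agent.Shell

universe u

/-- A finite abstract simplicial complex with vertices in `V`: a finite family of finite subsets
of `V` (the faces), containing the empty set and closed under passing to subsets. -/
structure FinComplex (V : Type u) where
  /-- The faces of the complex. -/
  faces : Set (Finset V)
  finite_faces : faces.Finite
  empty_mem : ∅ ∈ faces
  down_closed : ∀ s ∈ faces, ∀ t : Finset V, t ⊆ s → t ∈ faces

namespace FinComplex

variable {V : Type u}

/-- The geometric realization of a finite complex in barycentric coordinates: the functions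
`x : V → ℝ` with nonnegative values, supported in a face, with sum of values `1`. It carries the
subspace topology of the product topology on `V → ℝ`. -/
def realization (Δ : FinComplex V) : Set (V → ℝ) :=
  {x | (∀ v, 0 ≤ x v) ∧ ∃ s ∈ Δ.faces, (∀ v, v ∉ s → x v = 0) ∧ ∑ v ∈ s, x v = 1}

/-- A facet of a complex: a face that is maximal under inclusion. -/
def IsFacet (Δ : FinComplex V) (s : Finset V) : Prop :=
  s ∈ Δ.faces ∧ ∀ t ∈ Δ.faces, s ⊆ t → t = s

/-- A complex is pure if all its facets have the same number of vertices. -/
def IsPure (Δ : FinComplex V) : Prop :=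
  ∃ n, ∀ s, Δ.IsFacet s → s.card = n

/-- Every inclusion-maximal member of the family `C` of finite sets has `n` elements; for a
simplicial complex `C` this says that `C` is pure of dimension `n - 1`. -/
def AllMaximalHaveCard (C : Set (Finset V)) (n : ℕ) : Prop :=
  ∀ s ∈ C, (∀ t ∈ C, s ⊆ t → t = s) → s.card = n

/-- Shellability: the complex is pure and its facets can be listed (each exactly once) as
`F 0, F 1, …` so that for every `i > 0` the complex of all faces `t` of `F i` that are also faces
of some `F j` with `j < i` is pure of dimension `dim (F i) - 1`, that is, all its maximal members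
have one element less than `F i`. -/
def Shellable (Δ : FinComplex V) : Prop :=
  Δ.IsPure ∧ ∃ l : List (Finset V), l.Nodup ∧ (∀ s, s ∈ l ↔ Δ.IsFacet s) ∧
    ∀ (i : ℕ) (hi : i < l.length), 0 < i →
      AllMaximalHaveCard {t : Finset V | t ⊆ l[i] ∧ ∃ (j : ℕ) (hj : j < i), t ⊆ l[j]}
        ((l[i]).card - 1)

end FinComplex

end Pool.Agent.Shell
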