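import Pool.Agent.Shell.Glue
import Pool.Agent.Shell.Core

set_option autoImplicit false

namespace Pool.Agent.Shell

open FinComplex

universe u

set_option linter.unusedSectionVars false

/-! ### From shellability to reversed shelling lists -/

theorem sh_filter_map {W : Type u} [DecidableEq W] (R : Finset W) :
    ∀ {l : List (Finset W)}, Sh l →
      Sh ((l.filter fun G => decide (R ⊆ G)).map fun G => G \ R) := by
  intro l
  induction l with
  | nil => intro _; exact trivial
  | cons F l ih =>
    intro h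
    by_cases hR : R ⊆ F
    · rw [List.filter_cons_of_pos (by simpa using hR), List.map_cons]
      refine ⟨ih h.1, ?_⟩
      intro ρ hρ hG
      obtain ⟨G', hG', hρG'⟩ := hG
      rw [List.mem_map] at hG'
      obtain ⟨G, hG, rfl⟩ := hG'
      rw [List.mem_filter, decide_eq_true_eq] at hG
      obtain ⟨T, hT, hTc, hρT, G₂, hG₂, hTG₂⟩ := h.2 (ρ ∪ R)
        (Finset.union_subset (hρ.trans Finset.sdiff_subset) hR)
        ⟨G, hG.1, Finset.union_subset (hρG'.trans Finset.sdiff_subset) hG.2⟩
      have hRT : R ⊆ T := (Finset.subset_union_right).trans hρT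
      refine ⟨T \ R, Finset.sdiff_subset_sdiff hT (Finset.Subset.refl _), ?_, ?_, G₂ \ R, ?_,
        Finset.sdiff_subset_sdiff hTG₂ (Finset.Subset.refl _)⟩
      · rw [Finset.card_sdiff_of_subset hRT, Finset.card_sdiff_of_subset hR]
        have := Finset.card_le_card hRT
        omega
      · intro x hx
        rw [Finset.mem_sdiff]
        exact ⟨hρT (Finset.mem_union_left _ hx), (Finset.mem_sdiff.1 (hρ hx)).2⟩
      · rw [List.mem_map]
        refine ⟨G₂, ?_, rfl⟩
        rw [List.mem_filter, decide_eq_true_eq]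
        exact ⟨hG₂, hRT.trans hTG₂⟩
    · rw [List.filter_cons_of_neg (by simpa using hR)]
      exact ih h.1

theorem sh_of_list {W : Type u} [DecidableEq W] (l : List (Finset W))
    (hpos : ∀ G ∈ l, 0 < G.card)
    (h : ∀ (i : ℕ) (hi : i < l.length), 0 < i →
      AllMaximalHaveCard {t : Finset W | t ⊆ l[i] ∧ ∃ (j : ℕ) (hj : j < i), t ⊆ l[j]}
        ((l[i]).card - 1)) : Sh l.reverse := by
  induction l using List.reverseRecOn with
  | nil => exact trivial
  | append_singleton l F ih =>
    rw [List.reverse_append, List.reverse_singleton, List.singleton_append]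
    refine ⟨ih (fun G hG => hpos G (List.mem_append_left _ hG)) ?_, ?_⟩
    · intro i hi hi0
      have := h i (by rw [List.length_append]; omega) hi0
      rw [List.getElem_append_left hi] at this
      rintro t ⟨h1, j, hj, h2⟩ hmax
      refine this t ⟨h1, j, hj, ?_⟩ ?_
      · rw [List.getElem_append_left (by omega)]
        exact h2
      · rintro t' ⟨h1', j', hj', h2'⟩ htt'
        rw [List.getElem_append_left (by omega)] at h2'
        exact hmax t' ⟨h1', j', hj', h2'⟩ htt'
    · intro ρ hρ hG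
      obtain ⟨G, hG, hρG⟩ := hG
      rw [List.mem_reverse] at hG
      obtain ⟨j, hj, hjG⟩ := List.getElem_of_mem hG
      have hlen : 0 < l.length := by omega
      have hmax := h l.length (by rw [List.length_append]; simp) hlen
      have hF : (l ++ [F])[l.length]'(by rw [List.length_append]; simp) = F := by
        simp
      rw [hF] at hmax
      -- a maximal member above `ρ`
      have hCmem : ∀ t : Finset W, (t ⊆ F ∧ ∃ G ∈ l, t ⊆ G) ↔
          t ∈ {t : Finset W | t ⊆ F ∧ ∃ (j : ℕ) (hj : j < l.length),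
            t ⊆ (l ++ [F])[j]'(by rw [List.length_append]; omega)} := by
        intro t
        constructor
        · rintro ⟨h1, G, hG, h2⟩
          obtain ⟨j, hj, rfl⟩ := List.getElem_of_mem hG
          refine ⟨h1, j, hj, ?_⟩
          rw [List.getElem_append_left hj]
          exact h2
        · rintro ⟨h1, j, hj, h2⟩
          rw [List.getElem_append_left hj] at h2
          exact ⟨h1, _, List.getElem_mem hj, h2⟩
      classical
      obtain ⟨T, hT, hTmax⟩ := Finset.exists_max_image
        (F.powerset.filter fun t => ρ ⊆ t ∧ ∃ G ∈ l, t ⊆ G) Finset.card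
        ⟨ρ, by
          rw [Finset.mem_filter, Finset.mem_powerset]
          exact ⟨hρ, Finset.Subset.refl _, G, hG, hρG⟩⟩
      rw [Finset.mem_filter, Finset.mem_powerset] at hT
      obtain ⟨hTF, hρT, G', hG', hTG'⟩ := hT
      have hTcard := hmax T ((hCmem T).1 ⟨hTF, G', hG', hTG'⟩) (by
        intro t ht hTt
        rw [← hCmem] at ht
        obtain ⟨h1, h2⟩ := ht
        have := hTmax t (by
          rw [Finset.mem_filter, Finset.mem_powerset]
          exact ⟨h1, hρT.trans hTt, h2⟩)
        exact (Finset.eq_of_subset_of_card_le hTt this).symm)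
      refine ⟨T, hTF, ?_, hρT, G', List.mem_reverse.2 hG', hTG'⟩
      have := hpos F (by simp)
      omega

/-! ### Facets of the new complex -/

section

variable {A : Type u} [DecidableEq A]
variable {Δ : FinComplex (A ⊕ ℕ)} {E : Finset A} {q : A}

theorem facet_join (N : Normal Δ E q) {b : List ℕ} (hb : b ∈ endFacets)
    (hb3 : ¬ b.toFinset ⊆ F3) :
    (Gam N endFacets small_end).IsFacet (E.disjSum b.toFinset) := by
  refine ⟨⟨?_, Or.inr ⟨?_, b, hb, ?_⟩⟩, ?_⟩
  · intro h
    have := congrArg Finset.toRight h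
    rw [Finset.toRight_disjSum, Finset.toRight_disjSum] at this
    exact hb3 this.subset
  · rw [Finset.toLeft_disjSum]
    rw [Finset.ssubset_iff_of_subset (Finset.subset_insert _ _)]
    exact ⟨q, Finset.mem_insert_self _ _, N.hq⟩
  · rw [Finset.toRight_disjSum]
  · rintro t ⟨_, ht⟩ hsub
    rw [Finset.disjSum_subset] at hsub
    rcases ht with ht | ⟨h1, b', hb', h2⟩
    · exact absurd (hsub.2.trans (N.right t ht)) hb3
    · rw [Finset.eq_disjSum_iff]
      refine ⟨eq_of_between N.hq hsub.1 h1, ?_⟩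
      symm
      apply Finset.eq_of_subset_of_card_le hsub.2
      have h3 := Finset.card_le_card h2
      rw [card_check b' hb'] at h3
      rw [card_check b hb]
      exact h3

theorem facet_cases (N : Normal Δ E q) {G : Finset (A ⊕ ℕ)}
    (hG : (Gam N endFacets small_end).IsFacet G) (hE : E ⊆ G.toLeft)
    (hc : G.card = E.card + 4) :
    G.toRight ⊆ F3 ∨ ∃ b ∈ endFacets, G = E.disjSum b.toFinset := by
  obtain ⟨⟨_, h⟩, _⟩ := hG
  rcases h with h | ⟨h1, b, hb, h2⟩
  · left; exact N.right G h
  · right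
    refine ⟨b, hb, ?_⟩
    rw [Finset.eq_disjSum_iff]
    have hL := eq_of_between N.hq hE h1
    refine ⟨hL, ?_⟩
    apply Finset.eq_of_subset_of_card_le h2
    have := Finset.card_toLeft_add_card_toRight (u := G)
    rw [hL] at this
    rw [card_check b hb]
    omega

/-- The permutations on the vertex set of the new complex. -/
def MW : A ⊕ ℕ → A ⊕ ℕ → Equiv.Perm (Fin 3)
  | Sum.inr i, Sum.inr j => tM i j
  | _, _ => 1

/-- The local sections on the vertex set of the new complex. -/
def hW : A ⊕ ℕ → A ⊕ ℕ → Fin 3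
  | Sum.inr k, Sum.inr x => th k x
  | _, _ => 0

/-- The special vertices. -/
def KW : Finset (A ⊕ ℕ) := kv.toFinset.map Function.Embedding.inr

theorem mem_KW_inr {i : ℕ} : (Sum.inr i : A ⊕ ℕ) ∈ (KW : Finset (A ⊕ ℕ)) ↔ i ∈ kv := by
  unfold KW
  rw [Finset.mem_map]
  constructor
  · rintro ⟨j, hj, h⟩
    have : j = i := Sum.inr_injective h
    rw [← this]
    exact List.mem_toFinset.1 hj
  · intro h
    exact ⟨i, List.mem_toFinset.2 h, rfl⟩

theorem not_mem_KW_inl {a : A} : (Sum.inl a : A ⊕ ℕ) ∉ (KW : Finset (A ⊕ ℕ)) := by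
  unfold KW
  rw [Finset.mem_map]
  rintro ⟨j, _, h⟩
  cases h

theorem KW_card : (KW : Finset (A ⊕ ℕ)).card = 3 := by
  unfold KW
  rw [Finset.card_map]
  decide +kernel

theorem kv_big : ∀ i ∈ kv, ¬ i < 4 := by decide +kernel

theorem mem_F3 {i : ℕ} : i ∈ F3 ↔ i < 4 := by
  simp [F3]; omega

theorem sys_aux (l : List (Finset (A ⊕ ℕ)))
    (hc : ∀ G ∈ l, G.card = 4)
    (hl : ∀ G ∈ l, G.toRight ⊆ F3 ∨ ∃ b ∈ endFacets, G = b.toFinset.map Function.Embedding.inr) :
    Sys KW MW hW l := by
  have hM1 : ∀ G : Finset (A ⊕ ℕ), G.toRight ⊆ F3 → ∀ x ∈ G, ∀ y ∈ G, MW x y = 1 := by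
    intro G hG x hx y hy
    rcases x with a | i <;> rcases y with b | j
    · rfl
    · rfl
    · rfl
    · have hi := mem_F3.1 (hG (Finset.mem_toRight.2 hx))
      have hj := mem_F3.1 (hG (Finset.mem_toRight.2 hy))
      exact small_check i hi j hj
  have hKout : ∀ G : Finset (A ⊕ ℕ), G.toRight ⊆ F3 → ∀ k ∈ G, k ∉ (KW : Finset (A ⊕ ℕ)) := by
    intro G hG k hk hkK
    rcases k with a | i
    · exact not_mem_KW_inl hkK
    · have hi := mem_F3.1 (hG (Finset.mem_toRight.2 hk))
      exact kv_big i (mem_KW_inr.1 hkK) hi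
  have hin : ∀ b : List ℕ, ∀ x ∈ b.toFinset.map (Function.Embedding.inr : ℕ ↪ A ⊕ ℕ),
      ∃ i ∈ b, x = Sum.inr i := by
    intro b x hx
    obtain ⟨i, hi, rfl⟩ := Finset.mem_map.1 hx
    exact ⟨i, List.mem_toFinset.1 hi, rfl⟩
  refine ⟨hc, ?_, ?_, ?_, ?_⟩
  · intro G hG hK
    rcases hl G hG with h | ⟨b, hb, rfl⟩
    · have : ∃ k, k ∈ (KW : Finset (A ⊕ ℕ)) := by
        have : (KW : Finset (A ⊕ ℕ)).Nonempty := by
          rw [← Finset.card_pos, KW_card]; omega
        exact this
      obtain ⟨k, hk⟩ := this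
      exact hKout G h k (hK hk) hk
    · apply notK_check b hb
      rw [subL_iff]
      intro i hi
      have := hK (mem_KW_inr.2 (List.mem_toFinset.1 hi))
      obtain ⟨j, hj, hij⟩ := hin b _ this
      rw [Sum.inr_injective hij]
      exact List.mem_toFinset.2 hj
  · intro G hG x hx hxK y hy hyK z hz hzK
    rcases hl G hG with h | ⟨b, hb, rfl⟩
    · rw [hM1 G h y hy z hz, hM1 G h x hx y hy, hM1 G h x hx z hz, one_mul]
    · obtain ⟨i, hi, rfl⟩ := hin b x hx
      obtain ⟨j, hj, rfl⟩ := hin b y hy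
      obtain ⟨k, hk, rfl⟩ := hin b z hz
      rw [mem_KW_inr] at hxK hyK hzK
      exact flat_check b hb i hi hxK j hj hyK k hk hzK
  · intro G hG k hk hkK x hx hxK y hy hyK
    rcases hl G hG with h | ⟨b, hb, rfl⟩
    · exact absurd hkK (hKout G h k hk)
    · obtain ⟨κ, hκ, rfl⟩ := hin b k hk
      obtain ⟨i, hi, rfl⟩ := hin b x hx
      obtain ⟨j, hj, rfl⟩ := hin b y hy
      rw [mem_KW_inr] at hxK hyK hkK
      exact hloc_check b hb κ hκ hkK i hi hxK j hj hyK
  · intro G hG k hk hkK k' hk' hkK' x hx hxK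
    rcases hl G hG with h | ⟨b, hb, rfl⟩
    · exact absurd hkK (hKout G h k hk)
    · obtain ⟨κ, hκ, rfl⟩ := hin b k hk
      obtain ⟨κ', hκ', rfl⟩ := hin b k' hk'
      obtain ⟨i, hi, rfl⟩ := hin b x hx
      rw [mem_KW_inr] at hxK hkK hkK'
      exact hcomp_check b hb κ hκ hkK κ' hκ' hkK' i hi hxK

theorem walk_hol (s : ℕ → Fin 3)
    (hs : ∀ b ∈ endFacets, ¬ subL b [0, 1, 2, 3] = true → ∀ x ∈ b, x ∉ kv → ∀ y ∈ b, y ∉ kv →
      tM x y (s x) = s y) :
    ∀ (w : List ℕ), walkOk w = true → ∀ x, w.head? = some x → ∀ y, w.getLast? = some y →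
      hol w (s x) = s y := by
  intro w
  induction w with
  | nil => intro _ x hx; simp at hx
  | cons a w ih =>
    intro hw x hx y hy
    simp only [List.head?_cons, Option.some.injEq] at hx
    subst hx
    cases w with
    | nil =>
      simp only [List.getLast?_singleton, Option.some.injEq] at hy
      subst hy
      rfl
    | cons c w =>
      unfold walkOk at hw
      simp only [Bool.and_eq_true, Bool.not_eq_true'] at hw
      obtain ⟨⟨⟨h1, h2⟩, h3⟩, h4⟩ := hw
      rw [List.any_eq_true] at h1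
      obtain ⟨b, hb, hb'⟩ := h1
      simp only [Bool.and_eq_true, Bool.not_eq_true'] at hb'
      obtain ⟨⟨hb1, hb2⟩, hb3⟩ := hb'
      have e1 : a ∈ b := by
        rw [List.any_eq_true] at hb2
        obtain ⟨z, hz, hz'⟩ := hb2
        rw [beq_iff_eq] at hz'
        rw [← hz']; exact hz
      have e2 : c ∈ b := by
        rw [List.any_eq_true] at hb3
        obtain ⟨z, hz, hz'⟩ := hb3
        rw [beq_iff_eq] at hz'
        rw [← hz']; exact hz
      have e3 : a ∉ kv := by
        intro h
        rw [List.any_eq_false] at h2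
        exact h2 a h (by simp)
      have e4 : c ∉ kv := by
        intro h
        rw [List.any_eq_false] at h3
        exact h3 c h (by simp)
      have e5 := hs b hb (by rw [hb1]; simp) a e1 e3 c e2 e4
      have hlast : (c :: w).getLast? = some y := by
        rw [List.getLast?_cons_cons] at hy
        exact hy
      have := ih h4 c rfl y hlast
      unfold hol
      rw [Equiv.Perm.mul_apply, e5]
      exact this

/-- The new complex is not shellable. -/
theorem gam_not_shellable (N : Normal Δ E q) : ¬ (Gam N endFacets small_end).Shellable := by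
  rintro ⟨⟨n, hn⟩, l, _, hl, hshell⟩
  -- the common size of the facets
  have hb0 : ([0, 1, 2, 3] : List ℕ) ∈ endFacets := by decide +kernel
  obtain ⟨b1, hb1, hb13⟩ : ∃ b ∈ endFacets, ¬ b.toFinset ⊆ F3 := by decide +kernel
  have hn4 : n = E.card + 4 := by
    have := hn _ (facet_join N hb1 hb13)
    rw [Finset.card_disjSum, card_check b1 hb1] at this
    exact this.symm
  have hcard : ∀ G ∈ l, G.card = E.card + 4 := fun G hG => by
    rw [hn G ((hl G).1 hG), hn4]
  have hSh : Sh l.reverse := by
    apply sh_of_list l _ hshell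
    intro G hG
    rw [hcard G hG]; omega
  set R : Finset (A ⊕ ℕ) := E.map Function.Embedding.inl with hR
  have hSh2 := sh_filter_map R hSh
  set l2 := (l.reverse.filter fun G => decide (R ⊆ G)).map fun G => G \ R with hl2
  have hmem2 : ∀ G' ∈ l2, ∃ G ∈ l, R ⊆ G ∧ G' = G \ R := by
    intro G' hG'
    rw [hl2, List.mem_map] at hG'
    obtain ⟨G, hG, rfl⟩ := hG'
    rw [List.mem_filter, decide_eq_true_eq, List.mem_reverse] at hG
    exact ⟨G, hG.1, hG.2, rfl⟩
  have hRE : ∀ G : Finset (A ⊕ ℕ), R ⊆ G ↔ E ⊆ G.toLeft := by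
    intro G
    rw [hR, Finset.map_inl_subset_iff_subset_toLeft]
  have hjoin : ∀ b : List ℕ, (E.disjSum b.toFinset) \ R =
      b.toFinset.map Function.Embedding.inr := by
    intro b
    ext x
    rw [Finset.mem_sdiff, hR]
    rcases x with a | i
    · simp
    · simp
  have S : Sys KW MW hW l2 := by
    apply sys_aux
    · intro G' hG'
      obtain ⟨G, hG, hRG, rfl⟩ := hmem2 G' hG'
      rw [Finset.card_sdiff_of_subset hRG, hcard G hG, hR, Finset.card_map]
      omega
    · intro G' hG'
      obtain ⟨G, hG, hRG, rfl⟩ := hmem2 G' hG'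
      rcases facet_cases N ((hl G).1 hG) ((hRE G).1 hRG) (hcard G hG) with h | ⟨b, hb, rfl⟩
      · left
        intro i hi
        apply h
        rw [Finset.mem_toRight] at hi ⊢
        exact (Finset.mem_sdiff.1 hi).1
      · right
        exact ⟨b, hb, hjoin b⟩
  apply no_shelling KW_card S hSh2
  intro s hs
  have hs' : ∀ b ∈ endFacets, ¬ subL b [0, 1, 2, 3] = true → ∀ x ∈ b, x ∉ kv → ∀ y ∈ b, y ∉ kv →
      tM x y (s (Sum.inr x)) = s (Sum.inr y) := by
    intro b hb hb3 x hx hxK y hy hyK
    have hb3' : ¬ b.toFinset ⊆ F3 := by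
      intro h
      apply hb3
      rw [subL_iff]
      intro z hz
      have := h hz
      simpa [F3] using this
    have hfac := facet_join N hb hb3'
    have hGl : b.toFinset.map Function.Embedding.inr ∈ l2 := by
      rw [hl2, List.mem_map]
      refine ⟨E.disjSum b.toFinset, ?_, hjoin b⟩
      rw [List.mem_filter, decide_eq_true_eq, List.mem_reverse]
      refine ⟨(hl _).2 hfac, ?_⟩
      rw [hRE, Finset.toLeft_disjSum]
    have := hs _ hGl (Sum.inr x) (Finset.mem_map_of_mem _ (List.mem_toFinset.2 hx))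
      (by rw [mem_KW_inr]; exact hxK) (Sum.inr y)
      (Finset.mem_map_of_mem _ (List.mem_toFinset.2 hy)) (by rw [mem_KW_inr]; exact hyK)
    exact this
  have hw := walk_hol (fun i => s (Sum.inr i)) hs' walk walk_check
  have hwalk : ∃ x, walk.head? = some x := ⟨_, rfl⟩
  obtain ⟨x, hx⟩ := hwalk
  have := hw x hx x (by rw [← walk_closed]; exact hx)
  exact hol_check _ this

end

/-! ### Normal position -/

theorem exists_facet {V : Type u} (Δ : FinComplex V) {s : Finset V} (hs : s ∈ Δ.faces) :
    ∃ F, Δ.IsFacet F ∧ s ⊆ F := by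
  classical
  obtain ⟨F, hF, hmax⟩ := Finset.exists_max_image
    (Δ.finite_faces.toFinset.filter fun t => s ⊆ t) Finset.card
    ⟨s, by rw [Finset.mem_filter, Set.Finite.mem_toFinset]; exact ⟨hs, Finset.Subset.refl _⟩⟩
  rw [Finset.mem_filter, Set.Finite.mem_toFinset] at hF
  refine ⟨F, ⟨hF.1, ?_⟩, hF.2⟩
  intro t ht hFt
  have := hmax t (by
    rw [Finset.mem_filter, Set.Finite.mem_toFinset]
    exact ⟨ht, hF.2.trans hFt⟩)
  exact (Finset.eq_of_subset_of_card_le hFt this).symm

/-- Every complex of dimension at least three is homeomorphic to a nonshellable one. -/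
theorem main {V : Type u} (Δ : FinComplex V) (hdim : ∃ s ∈ Δ.faces, 4 ≤ s.card) :
    ∃ Δ' : FinComplex (Option V ⊕ ℕ), Nonempty (Δ'.realization ≃ₜ Δ.realization) ∧
      ¬ Δ'.Shellable := by
  classical
  obtain ⟨s, hs, hs4⟩ := hdim
  obtain ⟨F, hF, hsF⟩ := exists_facet Δ hs
  have hF4 : 4 ≤ F.card := hs4.trans (Finset.card_le_card hsF)
  obtain ⟨P, hPF, hP4⟩ := Finset.exists_subset_card_eq hF4
  -- the numbering of `P`
  let f : P ≃ Fin 4 := P.equivFinOfCardEq hP4
  let e0 : V → Option V ⊕ ℕ := fun v => if h : v ∈ P then Sum.inr (f ⟨v, h⟩ : ℕ)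
    else Sum.inl (some v)
  have he0 : Function.Injective e0 := by
    intro v w h
    by_cases hv : v ∈ P <;> by_cases hw : w ∈ P
    · simp only [e0, hv, hw, dif_pos] at h
      have h1 := Sum.inr_injective h
      have h2 := f.injective (Fin.ext h1)
      exact congrArg Subtype.val h2
    · simp [e0, hv, hw] at h
    · simp [e0, hv, hw] at h
    · simp only [e0, hv, hw, dif_neg, not_false_iff] at h
      exact Option.some_injective _ (Sum.inl_injective h)
  let e : V ↪ Option V ⊕ ℕ := ⟨e0, he0⟩
  have heP : ∀ v (hv : v ∈ P), e v = Sum.inr (f ⟨v, hv⟩ : ℕ) := by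
    intro v hv
    show e0 v = _
    simp only [e0, hv, dif_pos]
  have heN : ∀ v, v ∉ P → e v = Sum.inl (some v) := by
    intro v hv
    show e0 v = _
    simp only [e0, hv, dif_neg, not_false_iff]
  set Δ1 := mapComplex e Δ with hΔ1
  set E : Finset (Option V) := (F \ P).map Function.Embedding.some with hE
  have hFe : F.map e = E.disjSum F3 := by
    ext x
    rw [Finset.mem_map]
    rcases x with a | i
    · rw [Finset.inl_mem_disjSum, hE, Finset.mem_map]
      constructor
      · rintro ⟨v, hv, hve⟩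
        by_cases hvP : v ∈ P
        · rw [heP v hvP] at hve; cases hve
        · rw [heN v hvP] at hve
          exact ⟨v, Finset.mem_sdiff.2 ⟨hv, hvP⟩, Sum.inl_injective hve⟩
      · rintro ⟨v, hv, hve⟩
        rw [Finset.mem_sdiff] at hv
        refine ⟨v, hv.1, ?_⟩
        rw [heN v hv.2]
        exact congrArg Sum.inl hve
    · rw [Finset.inr_mem_disjSum, mem_F3]
      constructor
      · rintro ⟨v, _, hve⟩
        by_cases hvP : v ∈ P
        · rw [heP v hvP] at hve
          rw [← Sum.inr_injective hve]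
          exact (f ⟨v, hvP⟩).2
        · rw [heN v hvP] at hve; cases hve
      · intro hi
        refine ⟨(f.symm ⟨i, hi⟩).1, hPF (f.symm ⟨i, hi⟩).2, ?_⟩
        rw [heP _ (f.symm ⟨i, hi⟩).2]
        simp
  have N : Normal Δ1 E none := by
    refine ⟨⟨⟨F, hF.1, hFe⟩, ?_⟩, ?_, ?_, ?_⟩
    · rintro t ⟨γ, hγ, rfl⟩ hsub
      rw [← hFe] at hsub ⊢
      rw [Finset.map_subset_map] at hsub
      rw [hF.2 γ hγ hsub]
    · rintro t ⟨γ, _, rfl⟩ i hi
      rw [Finset.mem_toRight, Finset.mem_map] at hi
      obtain ⟨v, _, hve⟩ := hi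
      by_cases hvP : v ∈ P
      · rw [heP v hvP] at hve
        rw [← Sum.inr_injective hve, mem_F3]
        exact (f ⟨v, hvP⟩).2
      · rw [heN v hvP] at hve; cases hve
    · rintro t ⟨γ, _, rfl⟩ hi
      rw [Finset.mem_toLeft, Finset.mem_map] at hi
      obtain ⟨v, _, hve⟩ := hi
      by_cases hvP : v ∈ P
      · rw [heP v hvP] at hve; cases hve
      · rw [heN v hvP] at hve
        have := Sum.inl_injective hve
        cases this
    · intro h
      rw [hE, Finset.mem_map] at h
      obtain ⟨v, _, hv⟩ := h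
      cases hv
  obtain ⟨g⟩ := gam_end N
  exact ⟨Gam N endFacets small_end, ⟨g.symm.trans (mapHomeo e Δ)⟩, gam_not_shellable N⟩

end Pool.Agent.Shell
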