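import Pool.Agent.Shell.Defs

set_option autoImplicit false

/-!
# The homeomorphism attached to a (generalized) bistellar flip
-/

namespace Pool.Agent.Shell

open FinComplex

universe u

variable {W : Type u} [DecidableEq W]

set_option linter.unusedSectionVars false

/-- The minimum of the coordinates of `x` over `σ`. -/
noncomputable def mn (σ : Finset W) (hσ : σ.Nonempty) (x : W → ℝ) : ℝ := σ.inf' hσ x

/-- Push the minimum over `σ` of the coordinates from `σ` to `τ`. -/
noncomputable def push (σ τ : Finset W) (hσ : σ.Nonempty) (x : W → ℝ) : W → ℝ := fun v =>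
  x v - (if v ∈ σ then mn σ hσ x else 0) +
    (if v ∈ τ then (σ.card : ℝ) / τ.card * mn σ hσ x else 0)

theorem continuous_mn (σ : Finset W) (hσ : σ.Nonempty) : Continuous (mn σ hσ) := by
  unfold mn
  apply Continuous.finset_inf'_apply
  intro i _
  exact continuous_apply i

theorem continuous_push (σ τ : Finset W) (hσ : σ.Nonempty) : Continuous (push σ τ hσ) := by
  apply continuous_pi
  intro v
  unfold push
  by_cases h1 : v ∈ σ <;> by_cases h2 : v ∈ τ <;> simp only [h1, h2, if_true, if_false] <;>
    have := continuous_mn σ hσ <;> fun_prop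

theorem mn_nonneg (σ : Finset W) (hσ : σ.Nonempty) (x : W → ℝ) (hx : ∀ v, 0 ≤ x v) :
    0 ≤ mn σ hσ x := by
  unfold mn
  exact Finset.le_inf' hσ _ fun v _ => hx v

theorem mn_le (σ : Finset W) (hσ : σ.Nonempty) (x : W → ℝ) {v : W} (hv : v ∈ σ) :
    mn σ hσ x ≤ x v := Finset.inf'_le _ hv

theorem exists_mn (σ : Finset W) (hσ : σ.Nonempty) (x : W → ℝ) : ∃ v ∈ σ, mn σ hσ x = x v := by
  unfold mn
  exact Finset.exists_mem_eq_inf' hσ x

/-- The combinatorial data of a flip from the complex `C` to the complex `C'`, exchanging the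
faces containing `σ` with the faces containing `τ`. -/
structure IsFlip (C C' : FinComplex W) (σ τ : Finset W) : Prop where
  hσ : σ.Nonempty
  hτ : τ.Nonempty
  disj : Disjoint σ τ
  h1 : ∀ ρ ∈ C.faces, ¬ σ ⊆ ρ → ρ ∈ C'.faces
  h1' : ∀ ρ ∈ C'.faces, ¬ τ ⊆ ρ → ρ ∈ C.faces
  h2 : ∀ ρ ∈ C.faces, σ ⊆ ρ → ∀ α, α ⊂ σ → (ρ \ σ) ∪ α ∪ τ ∈ C'.faces
  h2' : ∀ ρ ∈ C'.faces, τ ⊆ ρ → ∀ β, β ⊂ τ → (ρ \ τ) ∪ β ∪ σ ∈ C.faces
  h3 : ∀ ρ ∈ C.faces, ¬ τ ⊆ ρ
  h3' : ∀ ρ ∈ C'.faces, ¬ σ ⊆ ρ

theorem IsFlip.symm {C C' : FinComplex W} {σ τ : Finset W} (h : IsFlip C C' σ τ) :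
    IsFlip C' C τ σ :=
  ⟨h.hτ, h.hσ, h.disj.symm, h.h1', h.h1, h.h2', h.h2, h.h3', h.h3⟩

theorem push_mem {C C' : FinComplex W} {σ τ : Finset W} (h : IsFlip C C' σ τ) {x : W → ℝ}
    (hx : x ∈ C.realization) : push σ τ h.hσ x ∈ C'.realization := by
  obtain ⟨h0, s, hs, hsupp, hsum⟩ := hx
  have ha := mn_nonneg σ h.hσ x h0
  have hσc : (0 : ℝ) < σ.card := by exact_mod_cast h.hσ.card_pos
  have hτc : (0 : ℝ) < τ.card := by exact_mod_cast h.hτ.card_pos
  have hdis : ∀ v, v ∈ σ → v ∉ τ := fun v h1 h2 => Finset.disjoint_left.1 h.disj h1 h2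
  constructor
  · intro v
    unfold push
    by_cases h1 : v ∈ σ
    · have := mn_le σ h.hσ x h1
      simp only [h1, if_true, hdis v h1, if_false]
      linarith
    · simp only [h1, if_false]
      have := h0 v
      split_ifs
      · have : 0 ≤ (σ.card : ℝ) / τ.card * mn σ h.hσ x := by positivity
        linarith
      · linarith
  · rcases ha.eq_or_lt with ha0 | ha0
    · -- the minimum is zero: nothing moves
      have hpush : push σ τ h.hσ x = x := by
        funext v
        unfold push
        rw [← ha0]; simp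
      rw [hpush]
      obtain ⟨v, hv, hv0⟩ := exists_mn σ h.hσ x
      refine ⟨s.erase v, ?_, ?_, ?_⟩
      · apply h.h1
        · exact C.down_closed s hs _ (Finset.erase_subset _ _)
        · intro hsub
          exact (Finset.notMem_erase v s) (hsub hv)
      · intro w hw
        by_cases hwv : w = v
        · rw [hwv, ← hv0, ← ha0]
        · exact hsupp w (fun hws => hw (Finset.mem_erase.2 ⟨hwv, hws⟩))
      · by_cases hvs : v ∈ s
        · rw [← Finset.sum_erase_add _ _ hvs, ← hv0, ← ha0, add_zero] at hsum
          exact hsum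
        · rw [Finset.erase_eq_of_notMem hvs]; exact hsum
    · -- the minimum is positive
      have hσs : σ ⊆ s := by
        intro v hv
        by_contra hvs
        have := mn_le σ h.hσ x hv
        rw [hsupp v hvs] at this
        linarith
      set α : Finset W := σ.filter fun v => mn σ h.hσ x < x v with hα
      have hασ : α ⊂ σ := by
        rw [Finset.ssubset_iff_subset_ne]
        refine ⟨Finset.filter_subset _ _, ?_⟩
        intro heq
        obtain ⟨v, hv, hv0⟩ := exists_mn σ h.hσ x
        rw [← heq, hα, Finset.mem_filter] at hv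
        linarith [hv.2]
      refine ⟨(s \ σ) ∪ α ∪ τ, h.h2 s hs hσs α hασ, ?_, ?_⟩
      · intro v hv
        rw [Finset.mem_union, Finset.mem_union, Finset.mem_sdiff] at hv
        push Not at hv
        obtain ⟨⟨hv1, hv2⟩, hv3⟩ := hv
        unfold push
        simp only [hv3, if_false, add_zero]
        by_cases h1 : v ∈ σ
        · have h2 : ¬ mn σ h.hσ x < x v := fun hlt => hv2 (Finset.mem_filter.2 ⟨h1, hlt⟩)
          have h3 := mn_le σ h.hσ x h1
          simp only [h1, if_true]
          linarith
        · simp only [h1, if_false, sub_zero]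
          exact hsupp v (fun hvs => h1 (hv1 hvs))
      · have hsub : (s \ σ) ∪ α ∪ τ ⊆ s ∪ τ := by
          intro v hv
          rw [Finset.mem_union, Finset.mem_union, Finset.mem_sdiff] at hv
          rw [Finset.mem_union]
          rcases hv with (hv | hv) | hv
          · left; exact hv.1
          · left; exact hσs (Finset.mem_filter.1 hv).1
          · right; exact hv
        have hz : ∀ v ∈ s ∪ τ, v ∉ (s \ σ) ∪ α ∪ τ → push σ τ h.hσ x v = 0 := by
          intro v hv hnv
          rw [Finset.mem_union, Finset.mem_union, Finset.mem_sdiff] at hnv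
          push Not at hnv
          obtain ⟨⟨hv1, hv2⟩, hv3⟩ := hnv
          have hvs : v ∈ s := by
            rcases Finset.mem_union.1 hv with h' | h'
            · exact h'
            · exact absurd h' hv3
          have h1 := hv1 hvs
          unfold push
          simp only [hv3, if_false, add_zero]
          have h2 : ¬ mn σ h.hσ x < x v := fun hlt => hv2 (Finset.mem_filter.2 ⟨h1, hlt⟩)
          have h3 := mn_le σ h.hσ x h1
          simp only [h1, if_true]
          linarith
        rw [Finset.sum_subset hsub hz]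
        unfold push
        rw [Finset.sum_add_distrib, Finset.sum_sub_distrib, ← Finset.sum_filter,
          ← Finset.sum_filter, Finset.sum_const, Finset.sum_const]
        have e1 : (s ∪ τ).filter (fun v => v ∈ σ) = σ := by
          ext v
          rw [Finset.mem_filter, Finset.mem_union]
          constructor
          · exact fun h' => h'.2
          · exact fun h' => ⟨Or.inl (hσs h'), h'⟩
        have e2 : (s ∪ τ).filter (fun v => v ∈ τ) = τ := by
          ext v
          rw [Finset.mem_filter, Finset.mem_union]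
          constructor
          · exact fun h' => h'.2
          · exact fun h' => ⟨Or.inr h', h'⟩
        rw [e1, e2]
        have e3 : ∑ v ∈ s ∪ τ, x v = 1 := by
          rw [← hsum]
          symm
          apply Finset.sum_subset Finset.subset_union_left
          intro v _ hv
          exact hsupp v hv
        rw [e3, nsmul_eq_mul, nsmul_eq_mul]
        field_simp
        ring

theorem push_push {C C' : FinComplex W} {σ τ : Finset W} (h : IsFlip C C' σ τ) {x : W → ℝ}
    (hx : x ∈ C.realization) : push τ σ h.hτ (push σ τ h.hσ x) = x := by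
  obtain ⟨h0, s, hs, hsupp, _⟩ := hx
  have ha := mn_nonneg σ h.hσ x h0
  have hσc : (0 : ℝ) < σ.card := by exact_mod_cast h.hσ.card_pos
  have hτc : (0 : ℝ) < τ.card := by exact_mod_cast h.hτ.card_pos
  have hdis : ∀ v, v ∈ τ → v ∉ σ := fun v h1 h2 => Finset.disjoint_left.1 h.disj h2 h1
  have hval : ∀ v ∈ τ, push σ τ h.hσ x v = x v + (σ.card : ℝ) / τ.card * mn σ h.hσ x := by
    intro v hv
    unfold push
    simp only [hv, if_true, hdis v hv, if_false, sub_zero]
  have hb : mn τ h.hτ (push σ τ h.hσ x) = (σ.card : ℝ) / τ.card * mn σ h.hσ x := by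
    apply le_antisymm
    · have := h.h3 s hs
      rw [Finset.not_subset] at this
      obtain ⟨w, hw, hws⟩ := this
      refine (mn_le τ h.hτ _ hw).trans ?_
      rw [hval w hw, hsupp w hws, zero_add]
    · obtain ⟨v, hv, hv'⟩ := exists_mn τ h.hτ (push σ τ h.hσ x)
      rw [hv', hval v hv]
      have := h0 v
      linarith
  funext v
  unfold push at hb ⊢
  rw [hb]
  have e : (τ.card : ℝ) / σ.card * ((σ.card : ℝ) / τ.card * mn σ h.hσ x) = mn σ h.hσ x := by
    field_simp
  rw [e]
  split_ifs <;> ring

/-- A flip does not change the geometric realization up to homeomorphism. -/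
noncomputable def IsFlip.homeo {C C' : FinComplex W} {σ τ : Finset W} (h : IsFlip C C' σ τ) :
    C.realization ≃ₜ C'.realization where
  toFun x := ⟨push σ τ h.hσ x.1, push_mem h x.2⟩
  invFun y := ⟨push τ σ h.hτ y.1, push_mem h.symm y.2⟩
  left_inv x := Subtype.ext (push_push h x.2)
  right_inv y := Subtype.ext (push_push h.symm y.2)
  continuous_toFun := by
    apply Continuous.subtype_mk
    exact (continuous_push σ τ h.hσ).comp continuous_subtype_val
  continuous_invFun := by
    apply Continuous.subtype_mk
    exact (continuous_push τ σ h.hτ).comp continuous_subtype_val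

/-! ### Relabelling vertices -/

variable {V : Type u}

/-- The image of a complex under an embedding of the vertex sets. -/
def mapComplex (e : V ↪ W) (Δ : FinComplex V) : FinComplex W where
  faces := {t | ∃ s ∈ Δ.faces, s.map e = t}
  finite_faces := by
    have : {t | ∃ s ∈ Δ.faces, s.map e = t} = (fun s => s.map e) '' Δ.faces := rfl
    rw [this]
    exact Δ.finite_faces.image _
  empty_mem := ⟨∅, Δ.empty_mem, by simp⟩
  down_closed := by
    rintro t ⟨s, hs, rfl⟩ r hr
    refine ⟨s.filter fun v => e v ∈ r, Δ.down_closed s hs _ (Finset.filter_subset _ _), ?_⟩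
    ext w
    rw [Finset.mem_map]
    constructor
    · rintro ⟨v, hv, rfl⟩
      exact (Finset.mem_filter.1 hv).2
    · intro hw
      obtain ⟨v, hv, rfl⟩ := Finset.mem_map.1 (hr hw)
      exact ⟨v, Finset.mem_filter.2 ⟨hv, hw⟩, rfl⟩

theorem comp_mem (e : V ↪ W) (Δ : FinComplex V) {y : W → ℝ}
    (hy : y ∈ (mapComplex e Δ).realization) : (fun v => y (e v)) ∈ Δ.realization := by
  obtain ⟨h0, t, ⟨s, hs, rfl⟩, hsupp, hsum⟩ := hy
  refine ⟨fun v => h0 _, s, hs, ?_, ?_⟩
  · intro v hv
    apply hsupp
    intro hcon
    obtain ⟨v', hv', he⟩ := Finset.mem_map.1 hcon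
    exact hv (e.injective he ▸ hv')
  · rw [Finset.sum_map] at hsum
    exact hsum

open Classical in
theorem extend_mem (e : V ↪ W) (Δ : FinComplex V) {x : V → ℝ} (hx : x ∈ Δ.realization) :
    Function.extend e x 0 ∈ (mapComplex e Δ).realization := by
  obtain ⟨h0, s, hs, hsupp, hsum⟩ := hx
  refine ⟨?_, s.map e, ⟨s, hs, rfl⟩, ?_, ?_⟩
  · intro w
    by_cases hw : ∃ v, e v = w
    · obtain ⟨v, rfl⟩ := hw
      rw [e.injective.extend_apply]; exact h0 v
    · rw [Function.extend_apply' _ _ _ hw]; simp
  · intro w hw
    by_cases hw' : ∃ v, e v = w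
    · obtain ⟨v, rfl⟩ := hw'
      rw [e.injective.extend_apply]
      apply hsupp
      intro hv
      exact hw (Finset.mem_map_of_mem e hv)
    · rw [Function.extend_apply' _ _ _ hw']; simp
  · rw [Finset.sum_map]
    rw [← hsum]
    apply Finset.sum_congr rfl
    intro v _
    rw [e.injective.extend_apply]

/-- Relabelling does not change the geometric realization up to homeomorphism. -/
noncomputable def mapHomeo (e : V ↪ W) (Δ : FinComplex V) :
    (mapComplex e Δ).realization ≃ₜ Δ.realization where
  toFun y := ⟨fun v => y.1 (e v), comp_mem e Δ y.2⟩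
  invFun x := ⟨Function.extend e x.1 0, extend_mem e Δ x.2⟩
  left_inv y := by
    apply Subtype.ext
    funext w
    by_cases hw : ∃ v, e v = w
    · obtain ⟨v, rfl⟩ := hw
      simp only
      rw [e.injective.extend_apply]
    · simp only
      rw [Function.extend_apply' _ _ _ hw]
      obtain ⟨_, t, ⟨s, _, rfl⟩, hsupp, _⟩ := y.2
      symm
      apply hsupp
      intro hcon
      obtain ⟨v, _, hv⟩ := Finset.mem_map.1 hcon
      exact hw ⟨v, hv⟩
  right_inv x := by
    apply Subtype.ext
    funext v
    simp only
    rw [e.injective.extend_apply]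
  continuous_toFun := by
    apply Continuous.subtype_mk
    apply continuous_pi
    intro v
    exact (continuous_apply (e v)).comp continuous_subtype_val
  continuous_invFun := by
    apply Continuous.subtype_mk
    apply continuous_pi
    intro w
    by_cases hw : ∃ v, e v = w
    · obtain ⟨v, rfl⟩ := hw
      simp only [e.injective.extend_apply]
      exact (continuous_apply v).comp continuous_subtype_val
    · simp only [Function.extend_apply' _ _ _ hw]
      exact continuous_const

end Pool.Agent.Shell
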