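import Pool.Agent.Shell.Flip
import Pool.Agent.Shell.Data

set_option autoImplicit false

/-!
# Replacing a facet by a join with the knotted sphere
-/

namespace Pool.Agent.Shell

open FinComplex

universe u

set_option linter.unusedSectionVars false

/-- The faces of the complex generated by a list of facets. -/
def L (fs : List (List ℕ)) (s : Finset ℕ) : Prop := ∃ b ∈ fs, s ⊆ b.toFinset

theorem subL_iff (a b : List ℕ) : subL a b = true ↔ a.toFinset ⊆ b.toFinset := by
  unfold subL
  rw [List.all_eq_true]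
  constructor
  · intro h x hx
    rw [List.mem_toFinset] at hx ⊢
    have := h x hx
    rw [List.any_eq_true] at this
    obtain ⟨y, hy, hxy⟩ := this
    rw [beq_iff_eq] at hxy
    rw [hxy]; exact hy
  · intro h x hx
    rw [List.any_eq_true]
    refine ⟨x, ?_, by simp⟩
    have := h (List.mem_toFinset.2 hx)
    exact List.mem_toFinset.1 this

theorem mem_del {l : List ℕ} {v x : ℕ} : x ∈ (del l v).toFinset ↔ x ∈ l ∧ x ≠ v := by
  unfold del
  rw [List.mem_toFinset, List.mem_filter]
  simp

/-- The validity of a flip, in terms of finite sets. -/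
structure Valid (fs : List (List ℕ)) (σ τ : List ℕ) : Prop where
  v2 : ∀ x ∈ σ, x ∉ τ
  v3 : ∀ w ∈ τ, ∃ b ∈ fs, (del (σ ++ τ) w).toFinset ⊆ b.toFinset
  v4 : ∀ b ∈ fs, σ.toFinset ⊆ b.toFinset → ∃ w ∈ τ, b.toFinset ⊆ (del (σ ++ τ) w).toFinset
  v5 : ∀ b ∈ fs, ¬ τ.toFinset ⊆ b.toFinset
  v6 : ∃ x ∈ σ, 4 ≤ x
  v7 : ∃ x ∈ τ, 4 ≤ x
  v8 : (σ ++ τ).length = 5

theorem valid_of_check {fs : List (List ℕ)} {σ τ : List ℕ} (h : validFlip fs σ τ = true) :
    Valid fs σ τ := by
  unfold validFlip at h
  simp only [Bool.and_eq_true] at h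
  obtain ⟨⟨⟨⟨⟨⟨h2, h3⟩, h4⟩, h5⟩, h6⟩, h7⟩, h8⟩ := h
  refine ⟨?_, ?_, ?_, ?_, ?_, ?_, ?_⟩
  · intro x hx hxt
    rw [List.all_eq_true] at h2
    have := h2 x hx
    rw [Bool.not_eq_true', List.any_eq_false] at this
    exact this x hxt (by simp)
  · intro w hw
    rw [List.all_eq_true] at h3
    have := h3 w hw
    rw [List.any_eq_true] at this
    obtain ⟨b, hb, hb'⟩ := this
    exact ⟨b, hb, (subL_iff _ _).1 hb'⟩
  · intro b hb hsub
    rw [List.all_eq_true] at h4
    have := h4 b hb
    rw [Bool.or_eq_true, Bool.not_eq_true'] at this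
    rcases this with h' | h'
    · rw [(subL_iff σ b).2 hsub] at h'
      exact absurd h' (by simp)
    · rw [List.any_eq_true] at h'
      obtain ⟨w, hw, hw'⟩ := h'
      exact ⟨w, hw, (subL_iff _ _).1 hw'⟩
  · intro b hb hsub
    rw [List.all_eq_true] at h5
    have := h5 b hb
    rw [Bool.not_eq_true', (subL_iff τ b).2 hsub] at this
    exact absurd this (by simp)
  · rw [List.any_eq_true] at h6
    obtain ⟨x, hx, hx'⟩ := h6
    exact ⟨x, hx, by simpa using hx'⟩
  · rw [List.any_eq_true] at h7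
    obtain ⟨x, hx, hx'⟩ := h7
    exact ⟨x, hx, by simpa using hx'⟩
  · simpa using h8

section Lflip

variable {fs : List (List ℕ)} {σ τ : List ℕ}

theorem mem_new {b : List ℕ} : b ∈ newFacets fs σ τ ↔
    (b ∈ fs ∧ ¬ σ.toFinset ⊆ b.toFinset) ∨ ∃ v ∈ σ, del (σ ++ τ) v = b := by
  unfold newFacets
  rw [List.mem_append, List.mem_filter, List.mem_map]
  have : (!(subL σ b)) = true ↔ ¬ σ.toFinset ⊆ b.toFinset := by
    rw [← subL_iff]; simp
  rw [this]

theorem L_h1 (V : Valid fs σ τ) {s : Finset ℕ} (hs : L fs s) (h : ¬ σ.toFinset ⊆ s) :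
    L (newFacets fs σ τ) s := by
  obtain ⟨b, hb, hsb⟩ := hs
  by_cases hσ : σ.toFinset ⊆ b.toFinset
  · obtain ⟨w, hw, hbw⟩ := V.v4 b hb hσ
    rw [Finset.not_subset] at h
    obtain ⟨v, hv, hvs⟩ := h
    rw [List.mem_toFinset] at hv
    refine ⟨del (σ ++ τ) v, mem_new.2 (Or.inr ⟨v, hv, rfl⟩), ?_⟩
    intro x hx
    have := mem_del.1 (hbw (hsb hx))
    rw [mem_del]
    exact ⟨this.1, fun hxv => hvs (hxv ▸ hx)⟩
  · exact ⟨b, mem_new.2 (Or.inl ⟨hb, hσ⟩), hsb⟩

theorem L_h1' (V : Valid fs σ τ) {s : Finset ℕ} (hs : L (newFacets fs σ τ) s)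
    (h : ¬ τ.toFinset ⊆ s) : L fs s := by
  obtain ⟨b, hb, hsb⟩ := hs
  rcases mem_new.1 hb with ⟨hb, _⟩ | ⟨v, hv, rfl⟩
  · exact ⟨b, hb, hsb⟩
  · rw [Finset.not_subset] at h
    obtain ⟨w, hw, hws⟩ := h
    rw [List.mem_toFinset] at hw
    obtain ⟨b, hb, hwb⟩ := V.v3 w hw
    refine ⟨b, hb, ?_⟩
    intro x hx
    apply hwb
    rw [mem_del]
    exact ⟨(mem_del.1 (hsb hx)).1, fun hxw => hws (hxw ▸ hx)⟩

theorem L_h2 (V : Valid fs σ τ) {s : Finset ℕ} (hs : L fs s) (h : σ.toFinset ⊆ s)
    {α : Finset ℕ} (hα : α ⊂ σ.toFinset) : L (newFacets fs σ τ) ((s \ σ.toFinset) ∪ α ∪ τ.toFinset) := by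
  obtain ⟨b, hb, hsb⟩ := hs
  obtain ⟨w, hw, hbw⟩ := V.v4 b hb (h.trans hsb)
  have hαs := hα.1
  obtain ⟨v, hv, hvα⟩ := Finset.exists_of_ssubset hα
  rw [List.mem_toFinset] at hv
  refine ⟨del (σ ++ τ) v, mem_new.2 (Or.inr ⟨v, hv, rfl⟩), ?_⟩
  intro x hx
  rw [Finset.mem_union, Finset.mem_union, Finset.mem_sdiff, List.mem_toFinset,
    List.mem_toFinset] at hx
  rw [mem_del, List.mem_append]
  rcases hx with (⟨hx1, hx2⟩ | hx) | hx
  · have := (mem_del.1 (hbw (hsb hx1))).1
    rw [List.mem_append] at this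
    refine ⟨this, ?_⟩
    rintro rfl
    exact hx2 hv
  · refine ⟨Or.inl (List.mem_toFinset.1 (hαs hx)), ?_⟩
    rintro rfl
    exact hvα hx
  · refine ⟨Or.inr hx, ?_⟩
    rintro rfl
    exact V.v2 x hv hx

theorem L_h2' (V : Valid fs σ τ) {s : Finset ℕ} (hs : L (newFacets fs σ τ) s)
    (h : τ.toFinset ⊆ s) {β : Finset ℕ} (hβ : β ⊂ τ.toFinset) :
    L fs ((s \ τ.toFinset) ∪ β ∪ σ.toFinset) := by
  obtain ⟨b, hb, hsb⟩ := hs
  rcases mem_new.1 hb with ⟨hb, _⟩ | ⟨v, hv, rfl⟩
  · exact absurd (h.trans hsb) (V.v5 b hb)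
  have hβs := hβ.1
  obtain ⟨w, hw, hwβ⟩ := Finset.exists_of_ssubset hβ
  rw [List.mem_toFinset] at hw
  obtain ⟨b, hb, hwb⟩ := V.v3 w hw
  refine ⟨b, hb, fun x hx => hwb ?_⟩
  rw [Finset.mem_union, Finset.mem_union, Finset.mem_sdiff, List.mem_toFinset,
    List.mem_toFinset] at hx
  rw [mem_del, List.mem_append]
  rcases hx with (⟨hx1, hx2⟩ | hx) | hx
  · have := (mem_del.1 (hsb hx1)).1
    rw [List.mem_append] at this
    refine ⟨this, ?_⟩
    rintro rfl
    exact hx2 hw
  · refine ⟨Or.inr (List.mem_toFinset.1 (hβs hx)), ?_⟩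
    rintro rfl
    exact hwβ hx
  · refine ⟨Or.inl hx, ?_⟩
    rintro rfl
    exact V.v2 x hx hw

theorem L_h3 (V : Valid fs σ τ) {s : Finset ℕ} (hs : L fs s) : ¬ τ.toFinset ⊆ s := by
  obtain ⟨b, hb, hsb⟩ := hs
  exact fun h => V.v5 b hb (h.trans hsb)

theorem L_h3' {s : Finset ℕ} (hs : L (newFacets fs σ τ) s) :
    ¬ σ.toFinset ⊆ s := by
  obtain ⟨b, hb, hsb⟩ := hs
  rcases mem_new.1 hb with ⟨_, hb'⟩ | ⟨v, hv, rfl⟩
  · exact fun h => hb' (h.trans hsb)
  · intro h
    have := mem_del.1 (hsb (h (List.mem_toFinset.2 hv)))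
    exact this.2 rfl

/-- All facets have at most four elements. -/
def Small (fs : List (List ℕ)) : Prop := ∀ b ∈ fs, b.toFinset.card ≤ 4

theorem small_new (V : Valid fs σ τ) (hS : Small fs) : Small (newFacets fs σ τ) := by
  intro b hb
  rcases mem_new.1 hb with ⟨hb, _⟩ | ⟨v, hv, rfl⟩
  · exact hS b hb
  · have h1 : (del (σ ++ τ) v).toFinset ⊆ ((σ ++ τ).toFinset).erase v := by
      intro x hx
      rw [mem_del] at hx
      rw [Finset.mem_erase, List.mem_toFinset]
      exact ⟨hx.2, hx.1⟩
    have h2 := Finset.card_le_card h1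
    rw [Finset.card_erase_of_mem (List.mem_toFinset.2 (List.mem_append_left _ hv))] at h2
    have h3 := List.toFinset_card_le (σ ++ τ)
    have := V.v8
    omega

end Lflip

/-- The set `{0, 1, 2, 3}`. -/
def F3 : Finset ℕ := {0, 1, 2, 3}

/-- The set `{0, 1, 2, 3, 4}`. -/
def F4 : Finset ℕ := {0, 1, 2, 3, 4}

variable {A : Type u} [DecidableEq A]

/-- A complex in normal position: a facet `E ⊔ {0, 1, 2, 3}` and no other vertices in `ℕ`, and
an unused vertex `q`. -/
structure Normal (Δ : FinComplex (A ⊕ ℕ)) (E : Finset A) (q : A) : Prop where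
  facet : Δ.IsFacet (E.disjSum F3)
  right : ∀ γ ∈ Δ.faces, γ.toRight ⊆ F3
  fresh : ∀ γ ∈ Δ.faces, q ∉ γ.toLeft
  hq : q ∉ E

variable {Δ : FinComplex (A ⊕ ℕ)} {E : Finset A} {q : A}

theorem eq_of_between (hq : q ∉ E) {X : Finset A} (h1 : E ⊆ X) (h2 : X ⊂ insert q E) :
    X = E := by
  apply Finset.Subset.antisymm _ h1
  intro x hx
  rcases Finset.mem_insert.1 (h2.1 hx) with rfl | h
  · exfalso
    apply h2.2
    intro y hy
    rcases Finset.mem_insert.1 hy with rfl | hy
    · exact hx
    · exact h1 hy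
  · exact h

theorem subset_foldr {fs : List (List ℕ)} {b : List ℕ} (hb : b ∈ fs) :
    b.toFinset ⊆ fs.foldr (fun b s => b.toFinset ∪ s) ∅ := by
  induction fs with
  | nil => simp at hb
  | cons c fs ih =>
    rw [List.foldr_cons]
    rcases List.mem_cons.1 hb with rfl | hb
    · exact Finset.subset_union_left
    · exact (ih hb).trans Finset.subset_union_right

/-- The complex obtained from `Δ` by replacing the facet `E ⊔ {0, 1, 2, 3}` by the join of the
boundary of the simplex `E ∪ {q}` with the complex generated by `fs`, without that facet. -/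
def Gam (N : Normal Δ E q) (fs : List (List ℕ)) (hS : Small fs) : FinComplex (A ⊕ ℕ) where
  faces := {γ | γ ≠ E.disjSum F3 ∧
    (γ ∈ Δ.faces ∨ (γ.toLeft ⊂ insert q E ∧ L fs γ.toRight))}
  finite_faces := by
    classical
    have hfin : (Δ.faces ∪ ↑(((insert q E).disjSum
        (fs.foldr (fun b s => b.toFinset ∪ s) ∅)).powerset) : Set (Finset (A ⊕ ℕ))).Finite :=
      Δ.finite_faces.union (Finset.finite_toSet _)
    refine hfin.subset ?_
    rintro γ ⟨_, h | ⟨h1, b, hb, h2⟩⟩
    · left; exact h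
    · right
      rw [Finset.mem_coe, Finset.mem_powerset, Finset.subset_disjSum]
      exact ⟨h1.1, h2.trans (subset_foldr hb)⟩
  empty_mem := by
    refine ⟨?_, Or.inl Δ.empty_mem⟩
    intro h
    have : (0 : ℕ) ∈ (∅ : Finset (A ⊕ ℕ)).toRight := by
      rw [h]; simp [F3]
    simp at this
  down_closed := by
    rintro γ ⟨hne, h⟩ t ht
    refine ⟨?_, ?_⟩
    · rintro rfl
      apply hne
      rcases h with h | ⟨h1, b, hb, h2⟩
      · exact N.facet.2 γ h ht
      · rw [Finset.disjSum_subset] at ht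
        rw [Finset.eq_disjSum_iff]
        refine ⟨eq_of_between N.hq ht.1 h1, ?_⟩
        symm
        apply Finset.eq_of_subset_of_card_le ht.2
        have h3 := Finset.card_le_card h2
        have h4 := hS b hb
        have h5 : F3.card = 4 := by decide
        omega
    · rcases h with h | ⟨h1, b, hb, h2⟩
      · left; exact Δ.down_closed γ h t ht
      · right
        refine ⟨?_, b, hb, ?_⟩
        · exact Finset.ssubset_of_subset_of_ssubset (Finset.toLeft_subset_toLeft ht) h1
        · exact (Finset.toRight_subset_toRight ht).trans h2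

theorem toRight_map_inr (s : Finset ℕ) :
    (s.map (Function.Embedding.inr : ℕ ↪ A ⊕ ℕ)).toRight = s := by
  ext x; simp

theorem toLeft_map_inr (s : Finset ℕ) :
    (s.map (Function.Embedding.inr : ℕ ↪ A ⊕ ℕ)).toLeft = ∅ := by
  ext x; simp

theorem ssubset_inr {α : Finset (A ⊕ ℕ)} {s : Finset ℕ}
    (h : α ⊂ s.map (Function.Embedding.inr : ℕ ↪ A ⊕ ℕ)) : α.toLeft = ∅ ∧ α.toRight ⊂ s := by
  have h1 := h.1
  rw [Finset.subset_map_inr] at h1
  refine ⟨h1.1, h1.2, ?_⟩
  intro h2
  apply h.2
  rw [Finset.map_inr_subset_iff_subset_toRight]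
  exact h2

/-- One flip. -/
theorem gam_flip (N : Normal Δ E q) {fs : List (List ℕ)} {σ τ : List ℕ} (hS : Small fs)
    (V : Valid fs σ τ) (hS' : Small (newFacets fs σ τ)) :
    IsFlip (Gam N fs hS) (Gam N (newFacets fs σ τ) hS')
      (σ.toFinset.map Function.Embedding.inr) (τ.toFinset.map Function.Embedding.inr) := by
  have hbig : ∀ (l : List ℕ), (∃ x ∈ l, 4 ≤ x) → ∀ γ ∈ Δ.faces,
      ¬ l.toFinset.map (Function.Embedding.inr : ℕ ↪ A ⊕ ℕ) ⊆ γ := by
    rintro l ⟨x, hx, hx4⟩ γ hγ h
    rw [Finset.map_inr_subset_iff_subset_toRight] at h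
    have := N.right γ hγ (h (List.mem_toFinset.2 hx))
    simp [F3] at this
    omega
  have hneF : ∀ (l : List ℕ), (∃ x ∈ l, 4 ≤ x) → ∀ γ : Finset (A ⊕ ℕ),
      l.toFinset ⊆ γ.toRight → γ ≠ E.disjSum F3 := by
    rintro l ⟨x, hx, hx4⟩ γ hγ rfl
    have := hγ (List.mem_toFinset.2 hx)
    simp [F3] at this
    omega
  refine ⟨?_, ?_, ?_, ?_, ?_, ?_, ?_, ?_, ?_⟩
  · obtain ⟨x, hx, _⟩ := V.v6
    exact ⟨Sum.inr x, Finset.mem_map_of_mem _ (List.mem_toFinset.2 hx)⟩
  · obtain ⟨x, hx, _⟩ := V.v7
    exact ⟨Sum.inr x, Finset.mem_map_of_mem _ (List.mem_toFinset.2 hx)⟩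
  · rw [Finset.disjoint_map, Finset.disjoint_left]
    intro x hx hx'
    exact V.v2 x (List.mem_toFinset.1 hx) (List.mem_toFinset.1 hx')
  · rintro γ ⟨hγ, h⟩ hσ
    rw [Finset.map_inr_subset_iff_subset_toRight] at hσ
    refine ⟨hγ, ?_⟩
    rcases h with h | ⟨h1, h2⟩
    · left; exact h
    · right; exact ⟨h1, L_h1 V h2 hσ⟩
  · rintro γ ⟨hγ, h⟩ hτ
    rw [Finset.map_inr_subset_iff_subset_toRight] at hτ
    refine ⟨hγ, ?_⟩
    rcases h with h | ⟨h1, h2⟩
    · left; exact h
    · right; exact ⟨h1, L_h1' V h2 hτ⟩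
  · rintro γ ⟨hγ, h⟩ hσ α hα
    rcases h with h | ⟨h1, h2⟩
    · exact absurd hσ (hbig σ V.v6 γ h)
    · obtain ⟨hα1, hα2⟩ := ssubset_inr hα
      rw [Finset.map_inr_subset_iff_subset_toRight] at hσ
      refine ⟨?_, Or.inr ⟨?_, ?_⟩⟩
      · apply hneF τ V.v7
        rw [Finset.toRight_union, toRight_map_inr]
        exact Finset.subset_union_right
      · rw [Finset.toLeft_union, Finset.toLeft_union, Finset.toLeft_sdiff, toLeft_map_inr,
          toLeft_map_inr, hα1]
        simpa using h1
      · rw [Finset.toRight_union, Finset.toRight_union, Finset.toRight_sdiff, toRight_map_inr,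
          toRight_map_inr]
        exact L_h2 V h2 hσ hα2
  · rintro γ ⟨hγ, h⟩ hτ β hβ
    rcases h with h | ⟨h1, h2⟩
    · exact absurd hτ (hbig τ V.v7 γ h)
    · obtain ⟨hβ1, hβ2⟩ := ssubset_inr hβ
      rw [Finset.map_inr_subset_iff_subset_toRight] at hτ
      refine ⟨?_, Or.inr ⟨?_, ?_⟩⟩
      · apply hneF σ V.v6
        rw [Finset.toRight_union, toRight_map_inr]
        exact Finset.subset_union_right
      · rw [Finset.toLeft_union, Finset.toLeft_union, Finset.toLeft_sdiff, toLeft_map_inr,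
          toLeft_map_inr, hβ1]
        simpa using h1
      · rw [Finset.toRight_union, Finset.toRight_union, Finset.toRight_sdiff, toRight_map_inr,
          toRight_map_inr]
        exact L_h2' V h2 hτ hβ2
  · rintro γ ⟨hγ, h⟩ hτ
    rcases h with h | ⟨h1, h2⟩
    · exact absurd hτ (hbig τ V.v7 γ h)
    · rw [Finset.map_inr_subset_iff_subset_toRight] at hτ
      exact L_h3 V h2 hτ
  · rintro γ ⟨hγ, h⟩ hσ
    rcases h with h | ⟨h1, h2⟩
    · exact absurd hσ (hbig σ V.v6 γ h)
    · rw [Finset.map_inr_subset_iff_subset_toRight] at hσ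
      exact L_h3' h2 hσ

/-- A sequence of flips. -/
theorem gam_run (N : Normal Δ E q) : ∀ (r : List (List ℕ × List ℕ)) (fs fs' : List (List ℕ))
    (hS : Small fs), runFlips r fs = some fs' →
    ∃ (hS' : Small fs'),
      Nonempty ((Gam N fs hS).realization ≃ₜ (Gam N fs' hS').realization) := by
  intro r
  induction r with
  | nil =>
    intro fs fs' hS h
    simp only [runFlips, Option.some.injEq] at h
    subst h
    exact ⟨hS, ⟨Homeomorph.refl _⟩⟩
  | cons p r ih =>
    obtain ⟨σ, τ⟩ := p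
    intro fs fs' hS h
    simp only [runFlips] at h
    split_ifs at h with hv
    have V := valid_of_check hv
    have hS1 := small_new V hS
    obtain ⟨hS', ⟨e⟩⟩ := ih _ _ hS1 h
    exact ⟨hS', ⟨(gam_flip N hS V hS1).homeo.trans e⟩⟩

/-! ### The first two subdivisions -/

theorem L_start {s : Finset ℕ} : L startFacets s ↔ s ⊂ F4 := by
  constructor
  · rintro ⟨b, hb, hsb⟩
    have key : ∀ b ∈ startFacets, b.toFinset ⊂ F4 := by decide +kernel
    exact Finset.ssubset_of_subset_of_ssubset hsb (key b hb)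
  · intro h
    obtain ⟨v, hv, hvs⟩ := Finset.exists_of_ssubset h
    have key : ∀ v ∈ F4, ∃ b ∈ startFacets, F4.erase v ⊆ b.toFinset := by decide +kernel
    obtain ⟨b, hb, hvb⟩ := key v hv
    refine ⟨b, hb, fun x hx => hvb (Finset.mem_erase.2 ⟨?_, h.1 hx⟩)⟩
    rintro rfl
    exact hvs hx

theorem small_start : Small startFacets := by
  intro b hb
  have key : ∀ b ∈ startFacets, b.toFinset.card ≤ 4 := by decide +kernel
  exact key b hb

/-- The intermediate complex: the facet is replaced by the cone with apex `4` over its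
boundary. -/
def Mid (N : Normal Δ E q) : FinComplex (A ⊕ ℕ) where
  faces := {γ | γ ≠ E.disjSum F3 ∧ (γ ∈ Δ.faces ∨ γ ⊂ E.disjSum F4)}
  finite_faces := by
    have hfin : (Δ.faces ∪ ↑((E.disjSum F4).powerset) : Set (Finset (A ⊕ ℕ))).Finite :=
      Δ.finite_faces.union (Finset.finite_toSet _)
    refine hfin.subset ?_
    rintro γ ⟨_, h | h⟩
    · left; exact h
    · right
      rw [Finset.mem_coe, Finset.mem_powerset]
      exact h.1
  empty_mem := by
    refine ⟨?_, Or.inl Δ.empty_mem⟩
    intro h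
    have : (0 : ℕ) ∈ (∅ : Finset (A ⊕ ℕ)).toRight := by
      rw [h]; simp [F3]
    simp at this
  down_closed := by
    rintro γ ⟨hne, h⟩ t ht
    refine ⟨?_, ?_⟩
    · rintro rfl
      apply hne
      rcases h with h | h
      · exact N.facet.2 γ h ht
      · -- between `E ⊔ F3` and `E ⊔ F4`
        apply Finset.Subset.antisymm _ ht
        intro x hx
        have hx' := h.1 hx
        by_contra hxn
        have hx4 : x = Sum.inr 4 := by
          rcases x with a | n
          · simp at hx' hxn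
            exact absurd hx' hxn
          · simp [F4, F3] at hx' hxn ⊢
            omega
        apply h.2
        intro y hy
        by_cases hy4 : y = Sum.inr 4
        · rw [hy4, ← hx4]; exact hx
        · apply ht
          rcases y with a | n
          · simp at hy ⊢; exact hy
          · simp [F4, F3] at hy hy4 ⊢
            omega
    · rcases h with h | h
      · left; exact Δ.down_closed γ h t ht
      · right
        exact Finset.ssubset_of_subset_of_ssubset ht h

theorem mid_flip (N : Normal Δ E q) :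
    IsFlip Δ (Mid N) (E.disjSum F3) {Sum.inr 4} := by
  have h4 : ∀ γ ∈ Δ.faces, (Sum.inr 4 : A ⊕ ℕ) ∉ γ := by
    intro γ hγ h
    have := N.right γ hγ (Finset.mem_toRight.2 h)
    simp [F3] at this
  have hF3 : E.disjSum F3 ⊂ E.disjSum F4 := by
    rw [Finset.ssubset_iff_subset_ne]
    constructor
    · rw [Finset.disjSum_subset]
      simp [F3, F4]
    · intro h
      have : (Sum.inr 4 : A ⊕ ℕ) ∈ E.disjSum F3 := by
        rw [h]; simp [F4]
      simp [F3] at this
  have hF4 : ∀ x : A ⊕ ℕ, x ∈ E.disjSum F4 → x ≠ Sum.inr 4 → x ∈ E.disjSum F3 := by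
    intro x hx hx4
    rcases x with a | n
    · simp at hx ⊢; exact hx
    · simp [F4, F3] at hx hx4 ⊢
      omega
  refine ⟨⟨Sum.inr 0, by simp [F3]⟩, ⟨_, Finset.mem_singleton_self _⟩, ?_, ?_, ?_, ?_, ?_, ?_, ?_⟩
  · rw [Finset.disjoint_singleton_right]
    simp [F3]
  · intro γ hγ h
    refine ⟨?_, Or.inl hγ⟩
    rintro rfl
    exact h (Finset.Subset.refl _)
  · rintro γ ⟨hγ, h⟩ hn
    rw [Finset.singleton_subset_iff] at hn
    rcases h with h | h
    · exact h
    · apply Δ.down_closed _ N.facet.1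
      intro x hx
      apply hF4 x (h.1 hx)
      rintro rfl
      exact hn hx
  · intro γ hγ h α hα
    have hγF : γ = E.disjSum F3 := N.facet.2 γ hγ h
    subst hγF
    rw [Finset.sdiff_self, Finset.empty_union]
    refine ⟨?_, Or.inr ?_⟩
    · intro hcon
      have : (Sum.inr 4 : A ⊕ ℕ) ∈ E.disjSum F3 := by
        rw [← hcon]; simp
      simp [F3] at this
    · rw [Finset.ssubset_iff_subset_ne]
      constructor
      · intro x hx
        rcases Finset.mem_union.1 hx with hx | hx
        · exact hF3.1 (hα.1 hx)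
        · rw [Finset.mem_singleton] at hx
          rw [hx]; simp [F4]
      · intro hcon
        apply hα.2
        intro x hx
        have : x ∈ α ∪ {Sum.inr 4} := by rw [hcon]; exact hF3.1 hx
        rcases Finset.mem_union.1 this with h' | h'
        · exact h'
        · rw [Finset.mem_singleton] at h'
          rw [h'] at hx
          simp [F3] at hx
  · rintro γ ⟨hγ, h⟩ hn β hβ
    rw [Finset.singleton_subset_iff] at hn
    have hβ0 : β = ∅ := by
      have := Finset.ssubset_singleton_iff.1 hβ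
      exact this
    subst hβ0
    rcases h with h | h
    · exact absurd hn (h4 γ h)
    · have : γ \ {Sum.inr 4} ∪ ∅ ∪ E.disjSum F3 = E.disjSum F3 := by
        rw [Finset.union_empty, Finset.union_eq_right]
        intro x hx
        rw [Finset.mem_sdiff, Finset.mem_singleton] at hx
        exact hF4 x (h.1 hx.1) hx.2
      rw [this]
      exact N.facet.1
  · intro γ hγ h
    rw [Finset.singleton_subset_iff] at h
    exact h4 γ hγ h
  · rintro γ ⟨hγ, h⟩ hF
    apply hγ
    rcases h with h | h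
    · exact N.facet.2 γ h hF
    · -- between
      apply Finset.Subset.antisymm _ hF
      intro x hx
      by_cases hx4 : x = Sum.inr 4
      · exfalso
        apply h.2
        intro y hy
        by_cases hy4 : y = Sum.inr 4
        · rw [hy4, ← hx4]; exact hx
        · exact hF (hF4 y hy hy4)
      · exact hF4 x (h.1 hx) hx4

theorem gam_start_flip (N : Normal Δ E q) :
    IsFlip (Mid N) (Gam N startFacets small_start) (F4.map Function.Embedding.inr)
      {Sum.inl q} := by
  have h4 : ∀ γ ∈ Δ.faces, ¬ F4.map (Function.Embedding.inr : ℕ ↪ A ⊕ ℕ) ⊆ γ := by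
    intro γ hγ h
    rw [Finset.map_inr_subset_iff_subset_toRight] at h
    have := N.right γ hγ (h (show 4 ∈ F4 by decide))
    simp [F3] at this
  have hne4 : ∀ γ : Finset (A ⊕ ℕ), 4 ∈ γ.toRight → γ ≠ E.disjSum F3 := by
    rintro γ h rfl
    simp [F3] at h
  have hneq : ∀ γ : Finset (A ⊕ ℕ), q ∈ γ.toLeft → γ ≠ E.disjSum F3 := by
    rintro γ h rfl
    simp at h
    exact N.hq h
  have hβ0 : ∀ β : Finset (A ⊕ ℕ), β ⊂ {Sum.inl q} → β = ∅ := fun β hβ =>
    Finset.ssubset_singleton_iff.1 hβ
  refine ⟨⟨Sum.inr 0, by simp [F4]⟩, ⟨_, Finset.mem_singleton_self _⟩, ?_, ?_, ?_, ?_, ?_, ?_, ?_⟩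
  · rw [Finset.disjoint_singleton_right]
    simp
  · rintro γ ⟨hγ, h⟩ hn
    refine ⟨hγ, ?_⟩
    rcases h with h | h
    · left; exact h
    · right
      have h1 := (Finset.subset_disjSum.1 h.1)
      refine ⟨?_, ?_⟩
      · rw [Finset.ssubset_iff_of_subset (h1.1.trans (Finset.subset_insert _ _))]
        exact ⟨q, Finset.mem_insert_self _ _, fun hq => N.hq (h1.1 hq)⟩
      · rw [L_start, Finset.ssubset_iff_subset_ne]
        refine ⟨h1.2, ?_⟩
        intro heq
        apply hn
        rw [Finset.map_inr_subset_iff_subset_toRight, heq]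
  · rintro γ ⟨hγ, h⟩ hn
    rw [Finset.singleton_subset_iff] at hn
    refine ⟨hγ, ?_⟩
    rcases h with h | ⟨h1, h2⟩
    · left; exact h
    · right
      rw [L_start] at h2
      rw [Finset.ssubset_iff_subset_ne]
      constructor
      · rw [Finset.subset_disjSum]
        refine ⟨?_, h2.1⟩
        intro x hx
        rcases Finset.mem_insert.1 (h1.1 hx) with rfl | h
        · exact absurd (Finset.mem_toLeft.1 hx) hn
        · exact h
      · rintro rfl
        apply h2.2
        simp
  · rintro γ ⟨hγ, h⟩ hσ α hα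
    rcases h with h | h
    · exact absurd hσ (h4 γ h)
    · obtain ⟨hα1, hα2⟩ := ssubset_inr hα
      rw [Finset.map_inr_subset_iff_subset_toRight] at hσ
      have h1 := (Finset.subset_disjSum.1 h.1)
      have hγL : γ.toLeft ⊂ E := by
        rw [Finset.ssubset_iff_subset_ne]
        refine ⟨h1.1, ?_⟩
        intro heq
        apply h.2
        rw [Finset.disjSum_subset, heq]
        exact ⟨Finset.Subset.refl _, hσ⟩
      have hL : (γ \ F4.map Function.Embedding.inr ∪ α ∪ {Sum.inl q}).toLeft =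
          insert q γ.toLeft := by
        rw [Finset.toLeft_union, Finset.toLeft_union, Finset.toLeft_sdiff, toLeft_map_inr, hα1]
        ext x
        simp [or_comm]
      have hR : (γ \ F4.map Function.Embedding.inr ∪ α ∪ {Sum.inl q}).toRight = α.toRight := by
        rw [Finset.toRight_union, Finset.toRight_union, Finset.toRight_sdiff, toRight_map_inr]
        have e1 : γ.toRight \ F4 = ∅ := by
          rw [Finset.sdiff_eq_empty_iff_subset]; exact h1.2
        have e2 : ({Sum.inl q} : Finset (A ⊕ ℕ)).toRight = ∅ := by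
          ext x; simp
        rw [e1, e2, Finset.empty_union, Finset.union_empty]
      refine ⟨?_, Or.inr ⟨?_, ?_⟩⟩
      · apply hneq
        rw [hL]; exact Finset.mem_insert_self _ _
      · rw [hL]
        obtain ⟨z, hz, hzn⟩ := Finset.exists_of_ssubset hγL
        rw [Finset.ssubset_iff_of_subset (Finset.insert_subset_insert _ hγL.1)]
        refine ⟨z, Finset.mem_insert_of_mem hz, ?_⟩
        rw [Finset.mem_insert, not_or]
        refine ⟨?_, hzn⟩
        rintro rfl
        exact N.hq hz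
      · rw [hR, L_start]; exact hα2
  · rintro γ ⟨hγ, h⟩ hn β hβ
    rw [Finset.singleton_subset_iff] at hn
    rw [hβ0 β hβ]
    rcases h with h | ⟨h1, h2⟩
    · exact absurd (Finset.mem_toLeft.2 hn) (N.fresh γ h)
    · rw [L_start] at h2
      have hL : (γ \ {Sum.inl q} ∪ ∅ ∪ F4.map Function.Embedding.inr).toLeft =
          γ.toLeft.erase q := by
        rw [Finset.toLeft_union, Finset.toLeft_union, Finset.toLeft_sdiff, toLeft_map_inr]
        ext x
        simp [and_comm]
      have hR : (γ \ {Sum.inl q} ∪ ∅ ∪ F4.map Function.Embedding.inr).toRight = F4 := by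
        rw [Finset.toRight_union, Finset.toRight_union, Finset.toRight_sdiff, toRight_map_inr]
        ext x
        simp only [Finset.mem_union, Finset.mem_sdiff, Finset.mem_toRight]
        constructor
        · rintro ((⟨h3, _⟩ | h3) | h3)
          · exact h2.1 (Finset.mem_toRight.2 h3)
          · simp at h3
          · exact h3
        · intro h3; right; exact h3
      refine ⟨?_, Or.inr ?_⟩
      · apply hne4
        rw [hR]; decide
      · have hsub : γ.toLeft.erase q ⊂ E := by
          rw [Finset.ssubset_iff_subset_ne]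
          constructor
          · intro x hx
            rw [Finset.mem_erase] at hx
            rcases Finset.mem_insert.1 (h1.1 hx.2) with h3 | h3
            · exact absurd h3 hx.1
            · exact h3
          · intro heq
            apply h1.2
            intro x hx
            rcases Finset.mem_insert.1 hx with rfl | h3
            · exact Finset.mem_toLeft.2 hn
            · rw [← heq] at h3
              exact (Finset.mem_erase.1 h3).2
        rw [Finset.ssubset_iff_subset_ne]
        constructor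
        · rw [Finset.subset_disjSum, hL, hR]
          exact ⟨hsub.1, Finset.Subset.refl _⟩
        · intro heq
          have := congrArg Finset.toLeft heq
          rw [hL, Finset.toLeft_disjSum] at this
          exact hsub.ne this
  · rintro γ ⟨hγ, h⟩ hq
    rw [Finset.singleton_subset_iff] at hq
    rcases h with h | h
    · exact N.fresh γ h (Finset.mem_toLeft.2 hq)
    · have := h.1 hq
      simp at this
      exact N.hq this
  · rintro γ ⟨hγ, h⟩ hσ
    rcases h with h | ⟨h1, h2⟩
    · exact h4 γ h hσ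
    · rw [Finset.map_inr_subset_iff_subset_toRight] at hσ
      rw [L_start] at h2
      exact h2.2 hσ

theorem small_end : Small endFacets := by
  intro b hb
  exact (card_check b hb).le

/-- The complex with the knotted sphere is homeomorphic to the original one. -/
theorem gam_end (N : Normal Δ E q) :
    Nonempty (Δ.realization ≃ₜ (Gam N endFacets small_end).realization) := by
  obtain ⟨hS', ⟨e⟩⟩ := gam_run N flips startFacets endFacets small_start runFlips_eq
  exact ⟨((mid_flip N).homeo.trans (gam_start_flip N).homeo).trans e⟩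

end Pool.Agent.Shell
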